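import Mathlib

set_option autoImplicit false

open Set Topology

namespace Pool.Agent.TriposPlane

/-- `q` contains the closed half circle centred at `s`. -/
def Half (s : Circle) (q : Set Circle) : Prop :=
  ∀ θ : ℝ, |θ| ≤ Real.pi / 2 → s * Circle.exp θ ∈ q

/-- Rotating `q` by `±A` lands in `q'`. -/
def Rot (A : ℝ) (q q' : Set Circle) : Prop :=
  ∀ c ∈ q, c * Circle.exp A ∈ q' ∧ c * Circle.exp (-A) ∈ q'

theorem exists_angle (s c : Circle) : ∃ θ : ℝ, -Real.pi < θ ∧ θ ≤ Real.pi ∧ c = s * Circle.exp θ := by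
  refine ⟨Complex.arg ((c / s : Circle) : ℂ), Complex.neg_pi_lt_arg _, Complex.arg_le_pi _, ?_⟩
  rw [Circle.exp_arg]
  exact (mul_div_cancel s c).symm

theorem cover {s : Circle} {q q' : Set Circle} (hq : Half s q) (hq' : Half s q') {D : ℝ}
    (h1 : Real.pi / 2 ≤ D) (h2 : D < Real.pi) (h : Rot D q q') (c : Circle) : c ∈ q' := by
  obtain ⟨θ, hθ1, hθ2, rfl⟩ := exists_angle s c
  have hpi := Real.pi_pos
  rcases le_total |θ| (Real.pi / 2) with h3 | h3
  · exact hq' θ h3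
  · rcases le_total 0 θ with h4 | h4
    · rw [abs_of_nonneg h4] at h3
      have h5 := (h _ (hq (θ - D) (by rw [abs_le]; constructor <;> linarith))).1
      rw [mul_assoc, ← Circle.exp_add] at h5
      simpa using h5
    · rw [abs_of_nonpos h4] at h3
      have h5 := (h _ (hq (θ + D) (by rw [abs_le]; constructor <;> linarith))).2
      rw [mul_assoc, ← Circle.exp_add] at h5
      simpa using h5

theorem exists_steps {A : ℝ} (hA : 0 < A) (hA' : A < Real.pi) (θ : ℝ) :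
    ∃ (k : ℕ) (m : ℤ), |θ - k * A + m * (2 * Real.pi)| ≤ Real.pi / 2 := by
  have hpi := Real.pi_pos
  set m : ℤ := -⌊(θ + Real.pi / 2) / (2 * Real.pi)⌋ with hm
  set T : ℝ := θ + m * (2 * Real.pi) with hT
  have h1 := Int.floor_le ((θ + Real.pi / 2) / (2 * Real.pi))
  have h2 := Int.lt_floor_add_one ((θ + Real.pi / 2) / (2 * Real.pi))
  rw [le_div_iff₀ (by positivity)] at h1
  rw [div_lt_iff₀ (by positivity)] at h2
  have hT1 : -(Real.pi / 2) ≤ T := by
    rw [hT, hm]; push_cast; linarith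
  have hT2 : T < 3 * Real.pi / 2 := by
    rw [hT, hm]; push_cast; linarith
  rcases le_total T (Real.pi / 2) with h3 | h3
  · refine ⟨0, m, ?_⟩
    rw [abs_le]
    constructor
    · push_cast; linarith
    · push_cast; linarith
  · set k : ℕ := ⌈(T - Real.pi / 2) / A⌉₊ with hk
    have h4 : (T - Real.pi / 2) / A ≤ k := Nat.le_ceil _
    have h5 : (k : ℝ) < (T - Real.pi / 2) / A + 1 :=
      Nat.ceil_lt_add_one (div_nonneg (by linarith) hA.le)
    rw [div_le_iff₀ hA] at h4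
    have h6 : (k : ℝ) * A < T - Real.pi / 2 + A := by
      have := mul_lt_mul_of_pos_right h5 hA
      rw [add_mul, div_mul_cancel₀ _ hA.ne', one_mul] at this
      exact this
    refine ⟨k, m, ?_⟩
    have h7 : θ - k * A + m * (2 * Real.pi) = T - k * A := by rw [hT]; ring
    rw [h7, abs_le]
    constructor <;> linarith

theorem mem_of_steps {s : Circle} {S : Set Circle} (hS : Half s S) {A : ℝ} (hA0 : A ≠ 0)
    (hA : |A| < Real.pi) (h : ∀ c ∈ S, c * Circle.exp A ∈ S) (c : Circle) : c ∈ S := by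
  have hk : ∀ (k : ℕ) (c : Circle), c ∈ S → c * Circle.exp (k * A) ∈ S := by
    intro k
    induction k with
    | zero => intro c hc; simpa using hc
    | succ k ih =>
      intro c hc
      have h1 := h _ (ih c hc)
      rw [mul_assoc, ← Circle.exp_add] at h1
      have h2 : ((k + 1 : ℕ) : ℝ) * A = k * A + A := by push_cast; ring
      rw [h2]; exact h1
  obtain ⟨θ, -, -, rfl⟩ := exists_angle s c
  have key : ∃ (k : ℕ) (m : ℤ), |θ - k * A + m * (2 * Real.pi)| ≤ Real.pi / 2 := by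
    rcases lt_or_gt_of_ne hA0 with h1 | h1
    · rw [abs_of_neg h1] at hA
      obtain ⟨k, m, hkm⟩ := exists_steps (A := -A) (by linarith) hA (-θ)
      refine ⟨k, -m, ?_⟩
      rw [← abs_neg]
      have h2 : -(θ - k * A + ((-m : ℤ) : ℝ) * (2 * Real.pi)) =
          -θ - k * -A + m * (2 * Real.pi) := by push_cast; ring
      rw [h2]; exact hkm
    · rw [abs_of_pos h1] at hA
      exact exists_steps h1 hA θ
  obtain ⟨k, m, hkm⟩ := key
  have h1 := hk k _ (hS _ hkm)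
  rw [mul_assoc, ← Circle.exp_add] at h1
  have h2 : Circle.exp (θ - k * A + m * (2 * Real.pi) + k * A) = Circle.exp θ := by
    rw [Circle.exp_eq_exp]
    exact ⟨m, by ring⟩
  rw [h2] at h1
  exact h1

/-- From the one-sided alternatives for `φ = A` and `φ = -A` to a two-sided one. -/
theorem rot_of_oneSided {s : Circle} {q q' : Set Circle} (hq : Half s q) (hq' : Half s q')
    (hne : ∃ c, c ∉ q) {A : ℝ} (hA0 : 0 < A) (hA : A < Real.pi)
    (h1 : (∀ c ∈ q, c * Circle.exp (-A) ∈ q') ∨ (∀ c ∈ q', c * Circle.exp A ∈ q))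
    (h2 : (∀ c ∈ q, c * Circle.exp A ∈ q') ∨ (∀ c ∈ q', c * Circle.exp (-A) ∈ q)) :
    Rot A q q' ∨ Rot A q' q := by
  obtain ⟨c, hc⟩ := hne
  have hS : Half s (q ∩ q') := fun θ hθ => ⟨hq θ hθ, hq' θ hθ⟩
  rcases h1 with h1 | h1 <;> rcases h2 with h2 | h2
  · exact Or.inl fun c hc => ⟨h2 c hc, h1 c hc⟩
  · exfalso
    have := mem_of_steps hS (A := -A) (neg_ne_zero.2 hA0.ne')
      (by rw [abs_neg, abs_of_pos hA0]; exact hA) (fun c hc => ⟨h2 c hc.2, h1 c hc.1⟩) c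
    exact hc this.1
  · exfalso
    have := mem_of_steps hS (A := A) hA0.ne' (by rw [abs_of_pos hA0]; exact hA)
      (fun c hc => ⟨h1 c hc.2, h2 c hc.1⟩) c
    exact hc this.1
  · exact Or.inr fun c hc => ⟨h1 c hc, h2 c hc⟩

theorem chain_false {s : Circle} {q q' q'' : Set Circle} (hq : Half s q) (hq'' : Half s q'')
    (hne : ∃ c, c ∉ q'') {A A' : ℝ} (h : Rot A q q') (h' : Rot A' q' q'')
    (h1 : Real.pi / 2 ≤ A + A') (h2 : A + A' < Real.pi) : False := by
  obtain ⟨c, hc⟩ := hne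
  apply hc
  refine cover hq hq'' h1 h2 (fun c hc => ⟨?_, ?_⟩) c
  · have := (h' _ (h c hc).1).1
    rwa [mul_assoc, ← Circle.exp_add] at this
  · have := (h' _ (h c hc).2).2
    rwa [mul_assoc, ← Circle.exp_add, ← neg_add] at this

theorem rot_false {s : Circle} {q q' : Set Circle} (hq : Half s q) (hq' : Half s q')
    (hne : ∃ c, c ∉ q) (hne' : ∃ c, c ∉ q') {A : ℝ} (h : Rot A q q' ∨ Rot A q' q)
    (h1 : Real.pi / 2 ≤ A) (h2 : A < Real.pi) : False := by
  obtain ⟨c, hc⟩ := hne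
  obtain ⟨c', hc'⟩ := hne'
  rcases h with h | h
  · exact hc' (cover hq hq' h1 h2 h c')
  · exact hc (cover hq' hq h1 h2 h c)

/-- **Final contradiction.** -/
theorem no_triple {s : Circle} {q₀ q₁ q₂ : Set Circle} (h₀ : Half s q₀) (h₁ : Half s q₁)
    (h₂ : Half s q₂) (n₀ : ∃ c, c ∉ q₀) (n₁ : ∃ c, c ∉ q₁) (n₂ : ∃ c, c ∉ q₂)
    {A₀ A₁ A₂ : ℝ} (p₀ : 0 < A₀) (p₁ : 0 < A₁) (p₂ : 0 < A₂) (hsum : A₀ + A₁ + A₂ = Real.pi)
    (r₀ : Rot A₀ q₁ q₂ ∨ Rot A₀ q₂ q₁) (r₁ : Rot A₁ q₀ q₂ ∨ Rot A₁ q₂ q₀)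
    (r₂ : Rot A₂ q₀ q₁ ∨ Rot A₂ q₁ q₀) : False := by
  have b₀ : A₀ < Real.pi / 2 := by
    by_contra h; push Not at h
    exact rot_false h₁ h₂ n₁ n₂ r₀ h (by linarith)
  have b₁ : A₁ < Real.pi / 2 := by
    by_contra h; push Not at h
    exact rot_false h₀ h₂ n₀ n₂ r₁ h (by linarith)
  have b₂ : A₂ < Real.pi / 2 := by
    by_contra h; push Not at h
    exact rot_false h₀ h₁ n₀ n₁ r₂ h (by linarith)
  rcases r₀ with r₀ | r₀ <;> rcases r₁ with r₁ | r₁ <;> rcases r₂ with r₂ | r₂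
  · exact chain_false h₀ h₂ n₂ r₂ r₀ (by linarith) (by linarith)
  · exact chain_false h₁ h₂ n₂ r₂ r₁ (by linarith) (by linarith)
  · exact chain_false h₀ h₂ n₂ r₂ r₀ (by linarith) (by linarith)
  · exact chain_false h₁ h₀ n₀ r₀ r₁ (by linarith) (by linarith)
  · exact chain_false h₀ h₁ n₁ r₁ r₀ (by linarith) (by linarith)
  · exact chain_false h₂ h₀ n₀ r₀ r₂ (by linarith) (by linarith)
  · exact chain_false h₂ h₁ n₁ r₁ r₂ (by linarith) (by linarith)
  · exact chain_false h₂ h₀ n₀ r₀ r₂ (by linarith) (by linarith)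

end Pool.Agent.TriposPlane
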