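import Mathlib
import Pool.Agent.InscribedSimplex.Topo

set_option autoImplicit false

open Set Topology

namespace Pool.Agent.TriposPlane

open Pool.Agent.InscribedSimplex (eq_of_exp_eq_one)

/-- Lifting of the argument of a nonvanishing function on `I × Circle` whose bottom values avoid a
ray. -/
theorem exists_lift {A : Type*} [TopologicalSpace A] {h : unitInterval × A → ℂ}
    (hc : Continuous h) (hne : ∀ p, h p ≠ 0) {w : ℂ} (hw : w ≠ 0)
    (h0 : ∀ c, h (0, c) * w ∈ Complex.slitPlane) :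
    ∃ ψ : unitInterval × A → ℝ, Continuous ψ ∧
      ∀ p, h p = (‖h p‖ : ℂ) * Complex.exp (ψ p * Complex.I) := by
  have hn : ∀ p, (‖h p‖ : ℂ) ≠ 0 := fun p => by
    exact_mod_cast norm_ne_zero_iff.2 (hne p)
  have hmem : ∀ p, h p / (‖h p‖ : ℂ) ∈ Submonoid.unitSphere ℂ := by
    intro p
    show h p / (‖h p‖ : ℂ) ∈ Metric.sphere (0 : ℂ) 1
    rw [mem_sphere_zero_iff_norm, norm_div, Complex.norm_real, norm_norm,
      div_self (norm_ne_zero_iff.2 (hne p))]
  let H : C(unitInterval × A, Circle) := ⟨fun p => ⟨h p / (‖h p‖ : ℂ), hmem p⟩, by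
    apply Continuous.subtype_mk
    exact hc.div (Complex.continuous_ofReal.comp hc.norm) hn⟩
  have hcont : Continuous fun c : A => Complex.arg (h (0, c) * w) := by
    rw [continuous_iff_continuousAt]
    intro c
    have h1 : ContinuousAt (fun c : A => h (0, c) * w) c := by fun_prop
    exact ContinuousAt.comp (g := Complex.arg) (f := fun c : A => h (0, c) * w)
      (Complex.continuousAt_arg (h0 c)) h1
  let f : C(A, ℝ) := ⟨fun c => Complex.arg (h (0, c) * w) - Complex.arg w, by fun_prop⟩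
  have hHf : ∀ c, H (0, c) = Circle.exp (f c) := by
    intro c
    apply Subtype.ext
    have h1 : ((H (0, c) : Circle) : ℂ) = h (0, c) / (‖h (0, c)‖ : ℂ) := rfl
    rw [h1, Circle.coe_exp]
    have h2 : ((f c : ℝ) : ℂ) = Complex.arg (h (0, c) * w) - Complex.arg w := by
      show ((Complex.arg (h (0, c) * w) - Complex.arg w : ℝ) : ℂ) = _
      push_cast; ring
    rw [h2, sub_mul, Complex.exp_sub]
    have h3 := Complex.norm_mul_exp_arg_mul_I (h (0, c) * w)
    have h4 := Complex.norm_mul_exp_arg_mul_I w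
    have hw' : (‖w‖ : ℂ) ≠ 0 := by exact_mod_cast norm_ne_zero_iff.2 hw
    have h5 : Complex.exp (Complex.arg w * Complex.I) ≠ 0 := Complex.exp_ne_zero _
    rw [div_eq_div_iff (hn _) h5]
    rw [norm_mul] at h3
    push_cast at h3
    have h6 : (‖w‖ : ℂ) * (h (0, c) * Complex.exp (Complex.arg w * Complex.I)) =
        (‖w‖ : ℂ) * (Complex.exp (Complex.arg (h (0, c) * w) * Complex.I) * (‖h (0, c)‖ : ℂ)) := by
      calc (‖w‖ : ℂ) * (h (0, c) * Complex.exp (Complex.arg w * Complex.I))
          = h (0, c) * ((‖w‖ : ℂ) * Complex.exp (Complex.arg w * Complex.I)) := by ring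
        _ = h (0, c) * w := by rw [h4]
        _ = (‖h (0, c)‖ : ℂ) * ‖w‖ * Complex.exp (Complex.arg (h (0, c) * w) * Complex.I) := h3.symm
        _ = _ := by ring
    exact mul_left_cancel₀ hw' h6
  set ψ := Circle.isCoveringMap_exp.liftHomotopy H f hHf with hψ
  refine ⟨ψ, ψ.continuous, ?_⟩
  intro p
  have h1 : Circle.exp (ψ p) = H p := congrFun (Circle.isCoveringMap_exp.liftHomotopy_lifts H f hHf) p
  have h2 : ((Circle.exp (ψ p) : Circle) : ℂ) = h p / (‖h p‖ : ℂ) := by rw [h1]; rfl
  rw [Circle.coe_exp] at h2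
  rw [h2, mul_div_cancel₀ _ (hn p)]

/-- There is no continuous logarithm on the circle. -/
theorem no_circle_log {ψ : Circle → ℝ} (hψ : Continuous ψ)
    (h : ∀ c : Circle, Complex.exp (ψ c * Complex.I) = c) : False := by
  have h1 : ∀ c : Circle, Circle.exp (ψ c) = c := by
    intro c
    apply Subtype.ext
    rw [Circle.coe_exp]; exact h c
  have h2 := eq_of_exp_eq_one (X := ℝ) (S := univ) isPreconnected_univ
    (h := fun θ => ψ (Circle.exp θ) - θ) (by fun_prop) (by
      intro θ _
      show Circle.exp (ψ (Circle.exp θ) - θ) = 1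
      rw [Circle.exp_sub, h1, div_self']) (mem_univ 0) (mem_univ (2 * Real.pi))
  beta_reduce at h2
  rw [Circle.exp_zero, Circle.exp_two_pi] at h2
  have := Real.pi_pos
  linarith

/-- Clopen separation of a component of a compact set from a closed set. -/
theorem exists_split {Y : Type*} [TopologicalSpace Y] [T2Space Y] {N T : Set Y} (hN : IsCompact N)
    (hT : IsClosed T) {p : Y} (hp : p ∈ N) (hd : ∀ y ∈ connectedComponentIn N p, y ∉ T) :
    ∃ N₁ N₂ : Set Y, IsCompact N₁ ∧ IsCompact N₂ ∧ N₁ ∪ N₂ = N ∧ Disjoint N₁ N₂ ∧ p ∈ N₁ ∧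
      Disjoint N₁ T := by
  have : CompactSpace N := isCompact_iff_compactSpace.1 hN
  set p' : N := ⟨p, hp⟩ with hp'
  set T' : Set N := Subtype.val ⁻¹' T with hT'
  have hT'c : IsClosed T' := hT.preimage continuous_subtype_val
  have hT'k : IsCompact T' := hT'c.isCompact
  have hcomp : connectedComponent p' = ⋂ s : { s : Set N // IsClopen s ∧ p' ∈ s }, (s : Set N) :=
    connectedComponent_eq_iInter_isClopen p'
  have hempty : T' ∩ (⋂ s : { s : Set N // IsClopen s ∧ p' ∈ s }, (s : Set N)) = ∅ := by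
    rw [← hcomp]
    rw [eq_empty_iff_forall_notMem]
    rintro y ⟨hy1, hy2⟩
    apply hd y.1 _ hy1
    rw [connectedComponentIn_eq_image hp]
    exact ⟨y, hy2, rfl⟩
  obtain ⟨t, ht⟩ := hT'k.elim_finite_subfamily_closed
    (fun s : { s : Set N // IsClopen s ∧ p' ∈ s } => (s : Set N))
    (fun s => s.2.1.isClosed) hempty
  set Z : Set N := ⋂ i ∈ t, (i : Set N) with hZ
  have hZc : IsClopen Z := by
    rw [hZ]
    exact isClopen_biInter_finset fun i _ => i.2.1
  have hpZ : p' ∈ Z := by
    rw [hZ]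
    simp only [mem_iInter]
    exact fun i _ => i.2.2
  refine ⟨Subtype.val '' Z, Subtype.val '' Zᶜ, ?_, ?_, ?_, ?_, ⟨p', hpZ, rfl⟩, ?_⟩
  · exact hZc.isClosed.isCompact.image continuous_subtype_val
  · exact hZc.compl.isClosed.isCompact.image continuous_subtype_val
  · rw [← image_union, union_compl_self, image_univ, Subtype.range_val]
  · exact (disjoint_image_iff Subtype.val_injective).2 disjoint_compl_right
  · rw [disjoint_left]
    rintro _ ⟨y, hy, rfl⟩ hyT
    have : y ∈ T' ∩ Z := ⟨hyT, hy⟩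
    rw [ht] at this
    exact this

end Pool.Agent.TriposPlane
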