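import Mathlib
import Pool.Agent.TriposPlane.Lift
import Pool.Agent.InscribedSimplex.Separator

set_option autoImplicit false

open Set Topology

namespace Pool.Agent.TriposPlane

/-- A value not attained on a preconnected set is not crossed. -/
theorem lt_of_avoid {X : Type*} [TopologicalSpace X] {S : Set X} (hS : IsPreconnected S)
    {ψ : X → ℝ} (hψ : Continuous ψ) {m : ℝ} (hm : ∀ x ∈ S, ψ x ≠ m) {x y : X} (hx : x ∈ S)
    (hy : y ∈ S) (h : ψ x < m) : ψ y < m := by
  by_contra hcon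
  push Not at hcon
  have himg : IsPreconnected (ψ '' S) := hS.image ψ hψ.continuousOn
  obtain ⟨z, hz, hzeq⟩ := himg.ordConnected.out ⟨x, hx, rfl⟩ ⟨y, hy, rfl⟩ ⟨h.le, hcon⟩
  exact hm z hz hzeq

theorem gt_of_avoid {X : Type*} [TopologicalSpace X] {S : Set X} (hS : IsPreconnected S)
    {ψ : X → ℝ} (hψ : Continuous ψ) {m : ℝ} (hm : ∀ x ∈ S, ψ x ≠ m) {x y : X} (hx : x ∈ S)
    (hy : y ∈ S) (h : m < ψ x) : m < ψ y := by
  by_contra hcon
  push Not at hcon
  have himg : IsPreconnected (ψ '' S) := hS.image ψ hψ.continuousOn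
  obtain ⟨z, hz, hzeq⟩ := himg.ordConnected.out ⟨y, hy, rfl⟩ ⟨x, hx, rfl⟩ ⟨hcon, h.le⟩
  exact hm z hz hzeq

/-- **Nesting lemma.**  Two regions of `I × A`, each connected with connected complement, whose
defining functions have no common zero, and which are in general position, are nested. -/
theorem nested {A : Type*} [TopologicalSpace A] {P P' : Set (unitInterval × A)}
    (hP : IsPreconnected P) (hPc : IsPreconnected Pᶜ) (hP' : IsPreconnected P')
    (hP'c : IsPreconnected P'ᶜ) {v v' : unitInterval × A → ℝ} (hv : Continuous v)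
    (hv' : Continuous v') (hvP : ∀ p ∈ P, 0 < v p) (hvPc : ∀ p ∉ P, v p ≤ 0)
    (hvP' : ∀ p ∈ P', 0 < v' p) (hvP'c : ∀ p ∉ P', v' p ≤ 0)
    (hne : ∀ p, v p = 0 → v' p = 0 → False) (hbot : ∀ c, v' (0, c) ≠ 0)
    {p₁ p₂ : unitInterval × A} (h₁ : p₁ ∈ P) (h₁' : p₁ ∈ P') (h₂ : p₂ ∉ P) (h₂' : p₂ ∉ P') :
    P ⊆ P' ∨ P' ⊆ P := by
  by_contra hcon
  rw [not_or, not_subset, not_subset] at hcon
  obtain ⟨⟨p₃, h₃, h₃'⟩, ⟨p₄, h₄', h₄⟩⟩ := hcon
  set h : unitInterval × A → ℂ := fun p => ⟨v p, v' p⟩ with hh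
  have hhc : Continuous h := by
    have : h = fun p => (v p : ℂ) + (v' p : ℂ) * Complex.I := by
      funext p
      simp only [hh]
      apply Complex.ext <;> simp
    rw [this]
    fun_prop
  obtain ⟨ψ₀, hψ₀c, hψ₀⟩ := exists_lift hhc (fun p h0 => by
      have h1 := congrArg Complex.re h0
      have h2 := congrArg Complex.im h0
      exact hne p h1 h2) (w := 1) one_ne_zero (fun c => by
      rw [mul_one, Complex.mem_slitPlane_iff]
      exact Or.inr (hbot c))
  have hpi := Real.pi_pos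
  -- normalise the lift
  set k : ℤ := ⌊ψ₀ p₁ / (2 * Real.pi)⌋ with hk
  set ψ : unitInterval × A → ℝ := fun p => ψ₀ p - 2 * Real.pi * k with hψdef
  have hψc : Continuous ψ := by fun_prop
  have hcos : ∀ p, v p = ‖h p‖ * Real.cos (ψ p) := by
    intro p
    have h1 := congrArg Complex.re (hψ₀ p)
    rw [Complex.re_ofReal_mul, Complex.exp_ofReal_mul_I_re] at h1
    have h2 : Real.cos (ψ p) = Real.cos (ψ₀ p) := by
      simp only [hψdef]
      rw [mul_comm (2 * Real.pi)]
      exact Real.cos_sub_int_mul_two_pi _ k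
    rw [h2]; exact h1
  have hsin : ∀ p, v' p = ‖h p‖ * Real.sin (ψ p) := by
    intro p
    have h1 := congrArg Complex.im (hψ₀ p)
    rw [Complex.im_ofReal_mul, Complex.exp_ofReal_mul_I_im] at h1
    have h2 : Real.sin (ψ p) = Real.sin (ψ₀ p) := by
      simp only [hψdef]
      rw [mul_comm (2 * Real.pi)]
      exact Real.sin_sub_int_mul_two_pi _ k
    rw [h2]; exact h1
  have hnorm : ∀ p, 0 < ‖h p‖ := by
    intro p
    rw [norm_pos_iff]
    intro h0
    exact hne p (congrArg Complex.re h0) (congrArg Complex.im h0)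
  have hcospos : ∀ p ∈ P, 0 < Real.cos (ψ p) := by
    intro p hp
    have h1 := hvP p hp
    rw [hcos] at h1
    exact (pos_iff_pos_of_mul_pos h1).1 (hnorm p)
  have hcosneg : ∀ p ∈ Pᶜ, Real.cos (ψ p) ≤ 0 := by
    intro p hp
    have h1 := hvPc p hp
    rw [hcos] at h1
    by_contra h2
    push Not at h2
    have := mul_pos (hnorm p) h2
    linarith
  have hsinpos : ∀ p ∈ P', 0 < Real.sin (ψ p) := by
    intro p hp
    have h1 := hvP' p hp
    rw [hsin] at h1
    exact (pos_iff_pos_of_mul_pos h1).1 (hnorm p)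
  have hsinneg : ∀ p ∈ P'ᶜ, Real.sin (ψ p) ≤ 0 := by
    intro p hp
    have h1 := hvP'c p hp
    rw [hsin] at h1
    by_contra h2
    push Not at h2
    have := mul_pos (hnorm p) h2
    linarith
  -- `ψ p₁ ∈ (0, π/2)`
  have hp1 : 0 ≤ ψ p₁ ∧ ψ p₁ < 2 * Real.pi := by
    have h1 := Int.floor_le (ψ₀ p₁ / (2 * Real.pi))
    have h2 := Int.lt_floor_add_one (ψ₀ p₁ / (2 * Real.pi))
    rw [← hk, le_div_iff₀ (by positivity)] at h1
    rw [← hk, div_lt_iff₀ (by positivity)] at h2
    constructor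
    · simp only [hψdef]; linarith
    · simp only [hψdef]; linarith
  have hp1s := hsinpos p₁ h₁'
  have hp1c := hcospos p₁ h₁
  have hp1a : 0 < ψ p₁ := by
    rcases lt_or_eq_of_le hp1.1 with h1 | h1
    · exact h1
    · rw [← h1, Real.sin_zero] at hp1s; exact absurd hp1s (lt_irrefl _)
  have hp1b : ψ p₁ < Real.pi := by
    by_contra h1
    push Not at h1
    have h2 : Real.sin (ψ p₁ - Real.pi) = -Real.sin (ψ p₁) := Real.sin_sub_pi _
    have h3 : 0 ≤ Real.sin (ψ p₁ - Real.pi) :=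
      Real.sin_nonneg_of_nonneg_of_le_pi (by linarith) (by linarith [hp1.2])
    linarith
  have hp1d : ψ p₁ < Real.pi / 2 := by
    by_contra h1
    push Not at h1
    have := Real.cos_nonpos_of_pi_div_two_le_of_le h1 (by linarith)
    linarith
  -- `p₃`
  have hp3a : ψ p₃ < Real.pi / 2 :=
    lt_of_avoid hP hψc (m := Real.pi / 2) (fun x hx h1 => by
      have := hcospos x hx
      rw [h1, Real.cos_pi_div_two] at this
      exact lt_irrefl _ this) h₁ h₃ hp1d
  have hp3b : -(Real.pi / 2) < ψ p₃ :=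
    gt_of_avoid hP hψc (m := -(Real.pi / 2)) (fun x hx h1 => by
      have := hcospos x hx
      rw [h1, Real.cos_neg, Real.cos_pi_div_two] at this
      exact lt_irrefl _ this) h₁ h₃ (by linarith)
  -- `p₄`
  have hp4a : ψ p₄ < Real.pi :=
    lt_of_avoid hP' hψc (m := Real.pi) (fun x hx h1 => by
      have := hsinpos x hx
      rw [h1, Real.sin_pi] at this
      exact lt_irrefl _ this) h₁' h₄' (by linarith)
  have hp4b : 0 < ψ p₄ :=
    gt_of_avoid hP' hψc (m := 0) (fun x hx h1 => by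
      have := hsinpos x hx
      rw [h1, Real.sin_zero] at this
      exact lt_irrefl _ this) h₁' h₄' (by linarith)
  -- `p₂` from `p₄`
  have hp2a : 0 < ψ p₂ :=
    gt_of_avoid hPc hψc (m := 0) (fun x hx h1 => by
      have := hcosneg x hx
      rw [h1, Real.cos_zero] at this
      linarith) h₄ h₂ hp4b
  have hp2b : Real.pi ≤ ψ p₂ := by
    by_contra h1
    push Not at h1
    have h2 := hsinneg p₂ h₂'
    have h3 := Real.sin_pos_of_pos_of_lt_pi hp2a h1
    linarith
  -- `p₂` from `p₃`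
  have hp2c : ψ p₂ < Real.pi / 2 :=
    lt_of_avoid hP'c hψc (m := Real.pi / 2) (fun x hx h1 => by
      have := hsinneg x hx
      rw [h1, Real.sin_pi_div_two] at this
      linarith) h₃' h₂' hp3a
  linarith

end Pool.Agent.TriposPlane
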