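import Mathlib
import Pool.Agent.TriposPlane.Nested

set_option autoImplicit false

open Set Topology

namespace Pool.Agent.TriposPlane

open Pool.Agent.InscribedSimplex

instance instLPCCircle : LocallyPathConnectedSpace Circle :=
  ChartedSpace.locallyPathConnectedSpace (EuclideanSpace ℝ (Fin 1)) _

/-- The region `Q` cut off by the component of `{0 ≤ u}` through `p₀`, on the side of `p₁`. -/
theorem exists_region {u : unitInterval × Circle → ℝ} (hu : Continuous u)
    (hbot : ∀ c, u (0, c) < 0) {p₀ p₁ : unitInterval × Circle} (h0 : 0 ≤ u p₀) (h1 : u p₁ < 0) :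
    ∃ (Q : Set (unitInterval × Circle)) (v : unitInterval × Circle → ℝ),
      IsPreconnected Q ∧ IsPreconnected Qᶜ ∧ IsOpen Q ∧ Continuous v ∧ (∀ p ∈ Q, 0 < v p) ∧
      (∀ p ∉ Q, v p ≤ 0) ∧ (∀ p, v p = 0 → u p = 0) ∧ (∀ c, v (0, c) ≠ 0) ∧
      (∀ p ∈ connectedComponentIn {p | 0 ≤ u p} p₀, p ∉ Q) ∧
      (∀ S : Set (unitInterval × Circle), IsPreconnected S → p₁ ∈ S → (∀ p ∈ S, u p < 0) →
        S ⊆ Q) := by
  set N : Set (unitInterval × Circle) := {p | 0 ≤ u p} with hN
  have hNc : IsClosed N := isClosed_le continuous_const hu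
  set W := connectedComponentIn N p₀ with hW
  have hWc : IsClosed W := isClosed_component hNc h0
  have hWp : IsPreconnected W := isPreconnected_connectedComponentIn
  have hWN : W ⊆ N := connectedComponentIn_subset _ _
  have h0W : p₀ ∈ W := mem_connectedComponentIn h0
  have hneg : ∀ p, u p < 0 → p ∈ Wᶜ := by
    intro p hp hpW
    have h2 : 0 ≤ u p := hWN hpW
    linarith
  set Q := connectedComponentIn Wᶜ p₁ with hQ
  have hQo : IsOpen Q := hWc.isOpen_compl.connectedComponentIn
  have hQp : IsPreconnected Q := isPreconnected_connectedComponentIn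
  have hQW : Q ⊆ Wᶜ := connectedComponentIn_subset _ _
  have hQc : IsPreconnected Qᶜ := isPreconnected_compl_component hWc hWp p₁ ⟨p₀, h0W⟩
  have h1Q : p₁ ∈ Q := mem_connectedComponentIn (hneg p₁ h1)
  have h0Q : p₀ ∉ Q := fun h => hQW h h0W
  -- the frontier
  have hfr : ∀ p ∈ frontier Q, u p = 0 := by
    intro x hx
    have hxQ : x ∉ Q := by
      rw [hQo.frontier_eq] at hx; exact hx.2
    have hxcl : x ∈ closure Q := hx.1
    have hxW : x ∈ W := by
      by_contra hxW
      have hopen : IsOpen (connectedComponentIn Wᶜ x) := hWc.isOpen_compl.connectedComponentIn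
      have hmem : x ∈ connectedComponentIn Wᶜ x := mem_connectedComponentIn hxW
      obtain ⟨z, hz1, hz2⟩ := mem_closure_iff.1 hxcl _ hopen hmem
      have e1 : connectedComponentIn Wᶜ x = connectedComponentIn Wᶜ z :=
        connectedComponentIn_eq hz1
      have e2 : connectedComponentIn Wᶜ p₁ = connectedComponentIn Wᶜ z :=
        connectedComponentIn_eq hz2
      apply hxQ
      rw [hQ, e2, ← e1]
      exact hmem
    have hle : 0 ≤ u x := hWN hxW
    by_contra hne
    have hlt : 0 < u x := lt_of_le_of_ne hle (Ne.symm hne)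
    have hnb : {y | 0 < u y} ∈ 𝓝 x := (isOpen_lt continuous_const hu).mem_nhds hlt
    have hcomp : connectedComponentIn {y | 0 < u y} x ∈ 𝓝 x := connectedComponentIn_mem_nhds hnb
    have hsub : connectedComponentIn {y | 0 < u y} x ⊆ W := by
      have hpre : IsPreconnected (connectedComponentIn {y | 0 < u y} x) :=
        isPreconnected_connectedComponentIn
      have h4 := hpre.subset_connectedComponentIn (F := N)
        (mem_connectedComponentIn (show x ∈ {y | 0 < u y} from hlt))
        (fun y hy => by
          have h6 : y ∈ {y | 0 < u y} := connectedComponentIn_subset _ _ hy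
          have h7 : 0 < u y := h6
          exact h7.le)
      have h5 : connectedComponentIn N p₀ = connectedComponentIn N x :=
        connectedComponentIn_eq hxW
      rw [hW, h5]
      exact h4
    obtain ⟨z, hz1, hz2⟩ := mem_closure_iff_nhds.1 hxcl _ hcomp
    exact hQW hz2 (hsub hz1)
  have hzero : ∀ p, sdist Q p = 0 → u p = 0 := fun p hp =>
    hfr p (mem_frontier_of_sdist hQo h0Q h1Q hp)
  refine ⟨Q, sdist Q, hQp, hQc, hQo, continuous_sdist, ?_, ?_, hzero, ?_, ?_, ?_⟩
  · intro p hp
    have h2 := sdist_nonneg (W := Q) (subset_closure hp)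
    rcases lt_or_eq_of_le h2 with h3 | h3
    · exact h3
    · exfalso
      have h4 := mem_frontier_of_sdist hQo h0Q h1Q h3.symm
      rw [hQo.frontier_eq] at h4
      exact h4.2 hp
  · intro p hp
    exact sdist_nonpos hp
  · intro c hc
    have := hbot c
    rw [hzero _ hc] at this
    exact lt_irrefl _ this
  · intro p hp hpQ
    exact hQW hpQ hp
  · intro S hS h1S hneg'
    exact hS.subset_connectedComponentIn h1S (fun p hp => hneg p (hneg' p hp))

end Pool.Agent.TriposPlane
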