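import Mathlib
import Pool.Agent.TriposPlane.Lift

set_option autoImplicit false

open Set Topology

namespace Pool.Agent.TriposPlane

/-- **Walk lemma.**  Let the point `x` move along a path `Γ` in a closed set `K`, from `z` on, and
let the ball of radius `ρ` about `q` touch `z` and avoid the path.  Then, for `r < ρ`, the chords
`(x, y)` of length `r` with `x` on the path and `y ∈ K` that are connected to the chord at `z`
pointing to `q` reach the end of the path. -/
theorem walk {K : Set ℂ} (hK : IsClosed K) {Γ : unitInterval → ℂ} (hΓc : Continuous Γ)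
    (hΓ : ∀ t, Γ t ∈ K) {q z : ℂ} {ρ r : ℝ} (hz : Γ 0 = z) (hseg : segment ℝ z q ⊆ K)
    (hρ : ∀ t, ρ ≤ dist (Γ t) q) (hr : 0 < r) (hrρ : r < ρ) (n : Circle)
    (hn : q - z = ρ * n) :
    ∃ c : Circle, ((1 : unitInterval), c) ∈
      connectedComponentIn {p : unitInterval × Circle | Γ p.1 + r * p.2 ∈ K} (0, n) := by
  by_contra hcon
  push Not at hcon
  have hρ0 : 0 < ρ := hr.trans hrρ
  set N : Set (unitInterval × Circle) := {p | Γ p.1 + r * p.2 ∈ K} with hN
  have hNc : IsClosed N := hK.preimage (by fun_prop)
  have h0n : ((0 : unitInterval), n) ∈ N := by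
    show Γ 0 + r * n ∈ K
    apply hseg
    rw [hz]
    refine ⟨1 - r / ρ, r / ρ, ?_, by positivity, by ring, ?_⟩
    · rw [sub_nonneg, div_le_one hρ0]; exact hrρ.le
    · rw [Complex.real_smul, Complex.real_smul]
      have h1 : q = z + ρ * n := by rw [← hn]; ring
      rw [h1]
      have h2 : (ρ : ℂ) ≠ 0 := by exact_mod_cast hρ0.ne'
      push_cast
      field_simp
      ring
  have hTc : IsClosed {p : unitInterval × Circle | p.1 = 1} :=
    isClosed_eq continuous_fst continuous_const
  obtain ⟨N₁, N₂, hN₁, hN₂, hun, hdis, hnN₁, hdT⟩ := exists_split (N := N)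
    (T := {p : unitInterval × Circle | p.1 = 1}) hNc.isCompact hTc h0n (by
      rintro ⟨t, c⟩ hy hyT
      have : t = 1 := hyT
      subst this
      exact hcon c hy)
  obtain ⟨η, hη0, hη1, hη⟩ := exists_continuous_zero_one_of_isClosed
    (s := N₂ ∪ {p : unitInterval × Circle | p.1 = 1}) (t := N₁)
    (hN₂.isClosed.union hTc) hN₁.isClosed (by
      rw [disjoint_union_left]
      exact ⟨hdis.symm, hdT.symm⟩)
  have hηc : Continuous η := η.continuous
  set a : unitInterval × Circle → ℝ := fun p => min 1 (2 * η p) with ha
  set b : unitInterval × Circle → ℝ := fun p => max 0 (2 * η p - 1) with hb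
  have hac : Continuous a := by fun_prop
  have hbc : Continuous b := by fun_prop
  have ha01 : ∀ p, 0 ≤ a p ∧ a p ≤ 1 := fun p =>
    ⟨le_min zero_le_one (by have := (hη p).1; linarith), min_le_left _ _⟩
  have hb01 : ∀ p, 0 ≤ b p ∧ b p ≤ 1 := fun p =>
    ⟨le_max_left _ _, max_le zero_le_one (by have := (hη p).2; linarith)⟩
  set l : unitInterval × Circle → ℝ := fun p => (p.1 : ℝ) - a p * (1 + p.1) with hl
  have hlc : Continuous l := by fun_prop
  have hl1 : ∀ p, -1 ≤ l p ∧ l p ≤ 1 := by
    intro p
    have h1 := p.1.2.1
    have h2 := p.1.2.2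
    have h3 := ha01 p
    constructor <;> simp only [hl] <;> nlinarith
  set ref : unitInterval × Circle → ℂ :=
    fun p => Γ (projIcc 0 1 zero_le_one (l p)) + (max (-l p) 0 : ℝ) * (q - z) with href
  have hrefc : Continuous ref := by
    apply Continuous.add
    · exact hΓc.comp (continuous_projIcc.comp hlc)
    · apply Continuous.mul _ continuous_const
      exact Complex.continuous_ofReal.comp (by fun_prop)
  have hrefK : ∀ p, ref p ∈ K := by
    intro p
    rcases le_total 0 (l p) with h | h
    · have h1 : ref p = Γ (projIcc 0 1 zero_le_one (l p)) := by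
        simp only [href]
        rw [max_eq_right (by linarith : -l p ≤ 0)]
        simp
      rw [h1]; exact hΓ _
    · have h1 : ref p = z + (-l p : ℝ) * (q - z) := by
        simp only [href]
        rw [max_eq_left (by linarith : 0 ≤ -l p), projIcc_of_le_left _ h]
        exact congrArg (· + _) hz
      rw [h1]
      apply hseg
      refine ⟨1 - (-l p), -l p, by have := (hl1 p).1; linarith, by linarith, by ring, ?_⟩
      rw [Complex.real_smul, Complex.real_smul]
      push_cast
      ring
  set h : unitInterval × Circle → ℂ :=
    fun p => Γ p.1 + ((1 - b p : ℝ) : ℂ) * (r * p.2) - ref p with hh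
  have hhc : Continuous h := by
    apply Continuous.sub _ hrefc
    apply Continuous.add (by fun_prop)
    apply Continuous.mul _ (by fun_prop)
    exact Complex.continuous_ofReal.comp (by fun_prop)
  -- values when `η = 0`
  have hzero : ∀ p, η p = 0 → h p = r * p.2 := by
    intro p hp
    have h1 : a p = 0 := by simp only [ha]; rw [hp]; norm_num
    have h2 : b p = 0 := by simp only [hb]; rw [hp]; norm_num
    have h3 : l p = p.1 := by simp only [hl]; rw [h1]; ring
    have h4 : ref p = Γ p.1 := by
      simp only [href]
      rw [h3, max_eq_right (by have := p.1.2.1; linarith : -((p.1 : ℝ)) ≤ 0), projIcc_val]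
      simp
    simp only [hh]
    rw [h4, h2]
    push_cast
    ring
  have hbig : ∀ p, 1 / 2 ≤ η p → a p = 1 := by
    intro p hp
    simp only [ha]
    exact min_eq_left (by linarith)
  have hbigref : ∀ p, 1 / 2 ≤ η p → ref p = q := by
    intro p hp
    have h3 : l p = -1 := by simp only [hl]; rw [hbig p hp]; ring
    simp only [href]
    rw [h3, projIcc_of_le_left _ (by norm_num : (-1 : ℝ) ≤ 0)]
    have : Γ ⟨0, left_mem_Icc.2 zero_le_one⟩ = z := hz
    rw [this]
    norm_num
  have hcn : ∀ c : Circle, ‖(c : ℂ)‖ = 1 := fun c => Circle.norm_coe c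
  have hne : ∀ p, h p ≠ 0 := by
    intro p
    have hbigne : 1 / 2 ≤ η p → h p ≠ 0 := by
      intro hp h0
      simp only [hh] at h0
      rw [hbigref p hp] at h0
      have h1 : Γ p.1 - q = -(((1 - b p : ℝ) : ℂ) * (r * p.2)) := by
        linear_combination h0
      have h2 := hρ p.1
      rw [dist_eq_norm, h1, norm_neg, norm_mul, norm_mul, hcn, Complex.norm_real,
        Complex.norm_real, mul_one, Real.norm_of_nonneg hr.le,
        Real.norm_of_nonneg (by have := (hb01 p).2; linarith)] at h2
      have h3 := (hb01 p).1
      nlinarith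
    by_cases hpN : p ∈ N
    · rw [← hun] at hpN
      rcases hpN with h1 | h1
      · apply hbigne
        have h2 : η p = 1 := hη1 h1
        rw [h2]; norm_num
      · have h2 : η p = 0 := hη0 (Or.inl h1)
        rw [hzero p h2]
        intro h0
        have h3 := congrArg norm h0
        rw [norm_mul, hcn, Complex.norm_real, norm_zero, mul_one, Real.norm_of_nonneg hr.le] at h3
        linarith
    · rcases le_total (1 / 2) (η p) with hp | hp
      · exact hbigne hp
      · have h2 : b p = 0 := by
          simp only [hb]
          exact max_eq_left (by linarith)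
        intro h0
        simp only [hh] at h0
        rw [h2] at h0
        have h3 : Γ p.1 + r * p.2 = ref p := by
          push_cast at h0
          linear_combination h0
        apply hpN
        show Γ p.1 + r * p.2 ∈ K
        rw [h3]
        exact hrefK p
  -- the bottom
  have hn0 : (n : ℂ) ≠ 0 := Circle.coe_ne_zero n
  have hbot : ∀ c : Circle, h (0, c) * (-(n : ℂ)⁻¹) ∈ Complex.slitPlane := by
    intro c
    have h1 : l (0, c) = -a (0, c) := by simp [hl]
    have h2 : ref (0, c) = z + a (0, c) * (ρ * n) := by
      simp only [href]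
      rw [h1, neg_neg, max_eq_left (ha01 (0, c)).1,
        projIcc_of_le_left _ (by have := (ha01 (0, c)).1; linarith : -a (0, c) ≤ 0), hn]
      exact congrArg (· + _) hz
    have h3 : h (0, c) * (-(n : ℂ)⁻¹) =
        ((a (0, c) * ρ : ℝ) : ℂ) - ((1 - b (0, c)) * r : ℝ) * ((c / n : Circle) : ℂ) := by
      simp only [hh]
      rw [h2, Circle.coe_div]
      have : Γ ((0 : unitInterval), c).1 = z := hz
      rw [this]
      push_cast
      field_simp
      ring
    rw [h3, Complex.mem_slitPlane_iff]
    set d : Circle := c / n with hd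
    have hdn : (d : ℂ).re ^ 2 + (d : ℂ).im ^ 2 = 1 := by
      have := hcn d
      rw [Complex.norm_eq_sqrt_sq_add_sq, Real.sqrt_eq_one] at this
      exact this
    rw [Complex.sub_re, Complex.sub_im, Complex.re_ofReal_mul, Complex.im_ofReal_mul,
      Complex.ofReal_re, Complex.ofReal_im]
    by_cases hd1 : d = 1
    · have hcn' : c = n := by
        rw [hd, div_eq_one] at hd1; exact hd1
      have h4 : η (0, c) = 1 := by rw [hcn']; exact hη1 hnN₁
      left
      have h5 : a (0, c) = 1 := hbig _ (by rw [h4]; norm_num)
      have h6 : b (0, c) = 1 := by simp only [hb]; rw [h4]; norm_num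
      rw [h5, h6]
      simp [hρ0]
    · by_cases hb1 : b (0, c) = 1
      · left
        have h4 : η (0, c) = 1 := by
          have h5 := (hη (0, c)).2
          simp only [hb] at hb1
          rcases max_choice (0 : ℝ) (2 * η (0, c) - 1) with h6 | h6
          · rw [h6] at hb1; norm_num at hb1
          · rw [h6] at hb1; linarith
        have h5 : a (0, c) = 1 := hbig _ (by rw [h4]; norm_num)
        rw [h5, hb1]
        simp [hρ0]
      · have hb2 : 0 < 1 - b (0, c) := by
          have := (hb01 (0, c)).2
          have h5 := lt_of_le_of_ne this hb1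
          linarith
        by_cases him : (d : ℂ).im = 0
        · left
          rw [him] at hdn
          have h5 : (d : ℂ).re = 1 ∨ (d : ℂ).re = -1 := by
            have : ((d : ℂ).re - 1) * ((d : ℂ).re + 1) = 0 := by nlinarith
            rcases mul_eq_zero.1 this with h6 | h6
            · left; linarith
            · right; linarith
          rcases h5 with h5 | h5
          · exfalso
            apply hd1
            apply Subtype.ext
            apply Complex.ext
            · rw [h5]; simp
            · rw [him]; simp
          · rw [h5]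
            have := (ha01 (0, c)).1
            have h6 : 0 < (1 - b (0, c)) * r := by positivity
            have h7 : 0 ≤ a (0, c) * ρ := by positivity
            linarith
        · right
          rw [zero_sub, neg_ne_zero]
          exact mul_ne_zero (by positivity) him
  obtain ⟨ψ, hψc, hψ⟩ := exists_lift hhc hne (w := -(n : ℂ)⁻¹)
    (neg_ne_zero.2 (inv_ne_zero hn0)) hbot
  apply no_circle_log (ψ := fun c => ψ (1, c)) (by fun_prop)
  intro c
  have h1 : η (1, c) = 0 := hη0 (Or.inr rfl)
  have h2 := hψ (1, c)
  rw [hzero _ h1, norm_mul, hcn, Complex.norm_real, mul_one, Real.norm_of_nonneg hr.le] at h2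
  have h3 : (r : ℂ) ≠ 0 := by exact_mod_cast hr.ne'
  exact (mul_left_cancel₀ h3 h2).symm

end Pool.Agent.TriposPlane
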