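import Mathlib
import Pool.Agent.TriposPlane.Walk
import Pool.Agent.TriposPlane.Region
import Pool.Agent.TriposPlane.Arc

set_option autoImplicit false

open Set Topology

namespace Pool.Agent.TriposPlane

/-- The midpoint of the parameter interval. -/
noncomputable def mid : unitInterval := ⟨1 / 2, by norm_num, by norm_num⟩

/-- The data of the proof: a set `K = {0 ≤ g}`, a path in `K` that starts at a maximum of `g`,
reaches at time `1/2` a boundary point touched by a ball contained in `K`, and then stays in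
`{g = 0}` and ends at a point of `K` of largest modulus. -/
structure Config (K : Set ℂ) (g : ℂ → ℝ) where
  X : unitInterval → ℂ
  cont : Continuous X
  gcont : Continuous g
  nonneg_iff : ∀ x, 0 ≤ g x ↔ x ∈ K
  mem : ∀ t, X t ∈ K
  top : ∀ t : unitInterval, (t : ℝ) ≤ 1 / 4 → ∀ y, g y ≤ g (X t)
  q : ℂ
  ρ : ℝ
  n : Circle
  ρpos : 0 < ρ
  hq : q - X mid = ρ * n
  ball : Metric.closedBall q ρ ⊆ K
  far : ∀ t : unitInterval, 1 / 2 ≤ (t : ℝ) → ρ ≤ dist (X t) q
  gzero : ∀ t : unitInterval, 1 / 2 ≤ (t : ℝ) → g (X t) = 0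
  R : ℝ
  s : Circle
  Rnonneg : 0 ≤ R
  hs : X 1 = R * s
  big : K ⊆ Metric.closedBall 0 R

namespace Config

variable {K : Set ℂ} {g : ℂ → ℝ} (C : Config K g)

/-- The comparison function for chords of length `r`. -/
noncomputable def u (r : ℝ) (p : unitInterval × Circle) : ℝ :=
  g (C.X p.1 + r * p.2) - g (C.X p.1) - max 0 (1 / 4 - (p.1 : ℝ))

theorem u_cont (r : ℝ) : Continuous (C.u r) := by
  have h1 := C.gcont
  have h2 := C.cont
  unfold u
  fun_prop

theorem u_bot (r : ℝ) (c : Circle) : C.u r (0, c) < 0 := by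
  have h1 := C.top 0 (by norm_num) (C.X 0 + r * c)
  have h2 : max 0 (1 / 4 - ((0 : unitInterval) : ℝ)) = 1 / 4 := by norm_num
  show g (C.X 0 + r * c) - g (C.X 0) - max 0 (1 / 4 - ((0 : unitInterval) : ℝ)) < 0
  rw [h2]
  linarith

theorem u_late (r : ℝ) {t : unitInterval} (ht : 1 / 2 ≤ (t : ℝ)) (c : Circle) :
    C.u r (t, c) = g (C.X t + r * c) := by
  show g (C.X t + r * c) - g (C.X t) - max 0 (1 / 4 - (t : ℝ)) = _
  rw [C.gzero t ht, max_eq_left (by linarith)]
  ring

/-- Zeros of the comparison functions are equalities of `g`. -/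
theorem eq_of_u_zero {r : ℝ} {p : unitInterval × Circle} (h : C.u r p = 0) :
    g (C.X p.1 + r * p.2) = g (C.X p.1) := by
  have h0 : g (C.X p.1 + r * p.2) - g (C.X p.1) - max 0 (1 / 4 - (p.1 : ℝ)) = 0 := h
  rcases le_total (p.1 : ℝ) (1 / 4) with h1 | h1
  · have h2 := C.top p.1 h1 (C.X p.1 + r * p.2)
    have h3 := le_max_left (0 : ℝ) (1 / 4 - (p.1 : ℝ))
    linarith
  · rw [max_eq_left (by linarith)] at h0
    linarith

theorem norm_late {r θ : ℝ} (h : r ≤ 2 * C.ρ * Real.cos θ) (hr : 0 ≤ r) :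
    C.X mid + r * ((C.n * Circle.exp θ : Circle) : ℂ) ∈ Metric.closedBall C.q C.ρ := by
  rw [Metric.mem_closedBall, dist_eq_norm]
  have h1 : C.X mid = C.q - C.ρ * C.n := by rw [← C.hq]; ring
  have h2 : C.X mid + r * ((C.n * Circle.exp θ : Circle) : ℂ) - C.q =
      C.n * (r * Complex.exp (θ * Complex.I) - C.ρ) := by
    rw [h1, Circle.coe_mul, Circle.coe_exp]; ring
  rw [h2, norm_mul, Circle.norm_coe, one_mul]
  have h3 : ‖(r : ℂ) * Complex.exp (θ * Complex.I) - C.ρ‖ ^ 2 ≤ C.ρ ^ 2 := by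
    rw [Complex.sq_norm, Complex.normSq_apply, Complex.sub_re, Complex.sub_im,
      Complex.re_ofReal_mul, Complex.im_ofReal_mul, Complex.exp_ofReal_mul_I_re,
      Complex.exp_ofReal_mul_I_im, Complex.ofReal_re, Complex.ofReal_im]
    have h4 := Real.sin_sq_add_cos_sq θ
    have h5 := mul_nonneg hr (sub_nonneg.2 h)
    have h6 : (r * Real.cos θ - C.ρ) * (r * Real.cos θ - C.ρ) +
        (r * Real.sin θ - 0) * (r * Real.sin θ - 0) =
        C.ρ ^ 2 - r * (2 * C.ρ * Real.cos θ - r) := by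
      linear_combination r ^ 2 * h4
    linarith
  exact abs_le_of_sq_le_sq' h3 C.ρpos.le |>.2

theorem notMem_end {r : ℝ} (hr : 0 < r) {θ : ℝ} (hθ : |θ| ≤ Real.pi / 2) :
    C.X 1 + r * ((C.s * Circle.exp θ : Circle) : ℂ) ∉ K := by
  intro h
  have h1 := C.big h
  rw [mem_closedBall_zero_iff] at h1
  have h2 : C.X 1 + r * ((C.s * Circle.exp θ : Circle) : ℂ) =
      C.s * (C.R + r * Complex.exp (θ * Complex.I)) := by
    rw [C.hs, Circle.coe_mul, Circle.coe_exp]; ring
  rw [h2, norm_mul, Circle.norm_coe, one_mul] at h1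
  have h3 : ‖(C.R : ℂ) + r * Complex.exp (θ * Complex.I)‖ ^ 2 ≤ C.R ^ 2 :=
    pow_le_pow_left₀ (norm_nonneg _) h1 2
  rw [Complex.sq_norm, Complex.normSq_apply, Complex.add_re, Complex.add_im,
      Complex.re_ofReal_mul, Complex.im_ofReal_mul, Complex.exp_ofReal_mul_I_re,
      Complex.exp_ofReal_mul_I_im, Complex.ofReal_re, Complex.ofReal_im] at h3
  have h4 := Real.sin_sq_add_cos_sq θ
  have h5 : 0 ≤ Real.cos θ := Real.cos_nonneg_of_neg_pi_div_two_le_of_le
    (abs_le.1 hθ).1 (abs_le.1 hθ).2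
  have h6 : 0 ≤ C.R * r * Real.cos θ := mul_nonneg (mul_nonneg C.Rnonneg hr.le) h5
  have h7 : 0 < r ^ 2 := by positivity
  nlinarith

/-- The reparametrised late part of the path. -/
noncomputable def late (t : unitInterval) : unitInterval :=
  ⟨(1 + t) / 2, by have := t.2.1; linarith, by have := t.2.2; linarith⟩

theorem late_cont : Continuous late := by
  unfold late
  fun_prop

theorem late_zero : late 0 = mid := by
  apply Subtype.ext
  simp [late, mid]

theorem late_one : late 1 = 1 := by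
  apply Subtype.ext
  simp [late]

theorem late_ge (t : unitInterval) : 1 / 2 ≤ (late t : ℝ) := by
  have := t.2.1
  simp only [late]
  linarith

theorem region {r : ℝ} (hr : 0 < r) (hrρ : r < C.ρ) :
    ∃ (Q : Set (unitInterval × Circle)) (v : unitInterval × Circle → ℝ),
      IsPreconnected Q ∧ IsPreconnected Qᶜ ∧ Continuous v ∧ (∀ p ∈ Q, 0 < v p) ∧
      (∀ p ∉ Q, v p ≤ 0) ∧ (∀ p, v p = 0 → C.u r p = 0) ∧ (∀ c, v (0, c) ≠ 0) ∧
      (∃ c, ((1 : unitInterval), c) ∉ Q) ∧ Half C.s {c | ((1 : unitInterval), c) ∈ Q} ∧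
      (∀ θ : ℝ, |θ| ≤ Real.pi / 2 → r ≤ 2 * C.ρ * Real.cos θ →
        (mid, C.n * Circle.exp θ) ∉ Q) := by
  have hmid : (1 : ℝ) / 2 ≤ ((mid : unitInterval) : ℝ) := le_of_eq rfl
  have h0 : 0 ≤ C.u r (mid, C.n) := by
    rw [C.u_late r hmid, C.nonneg_iff]
    apply C.ball
    have := C.norm_late (r := r) (θ := 0) (by rw [Real.cos_zero]; linarith [C.ρpos]) hr.le
    rwa [Circle.exp_zero, mul_one] at this
  have hneg : ∀ θ : ℝ, |θ| ≤ Real.pi / 2 → C.u r (1, C.s * Circle.exp θ) < 0 := by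
    intro θ hθ
    have h1 : (1 : ℝ) / 2 ≤ ((1 : unitInterval) : ℝ) := by norm_num
    rw [C.u_late r h1]
    by_contra h2
    push Not at h2
    rw [C.nonneg_iff] at h2
    exact C.notMem_end hr hθ h2
  have h1 : C.u r (1, C.s) < 0 := by
    have := hneg 0 (by rw [abs_zero]; have := Real.pi_pos; positivity)
    rwa [Circle.exp_zero, mul_one] at this
  obtain ⟨Q, v, hQ, hQc, hQo, hv, hvQ, hvQc, hvz, hvb, hW, hS⟩ :=
    exists_region (C.u_cont r) (C.u_bot r) (p₀ := (mid, C.n)) (p₁ := (1, C.s)) h0 h1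
  refine ⟨Q, v, hQ, hQc, hv, hvQ, hvQc, hvz, hvb, ?_, ?_, ?_⟩
  · -- the walk
    obtain ⟨c, hc⟩ := walk (K := K) (Γ := fun t => C.X (late t)) (q := C.q) (z := C.X mid)
      (ρ := C.ρ) (r := r)
      (by
        have : K = {x | 0 ≤ g x} := by ext x; exact (C.nonneg_iff x).symm
        rw [this]
        exact isClosed_le continuous_const C.gcont)
      (C.cont.comp late_cont) (fun t => C.mem _) (by rw [late_zero]) (by
        apply (convex_closedBall C.q C.ρ).segment_subset _ _ |>.trans C.ball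
        · have := C.norm_late (r := 0) (θ := 0) (by rw [Real.cos_zero]; linarith [C.ρpos]) le_rfl
          simpa using this
        · exact Metric.mem_closedBall_self C.ρpos.le)
      (fun t => C.far _ (late_ge t)) hr hrρ C.n C.hq
    refine ⟨c, hW _ ?_⟩
    have hmap : Continuous fun p : unitInterval × Circle => (late p.1, p.2) := by
      have := late_cont
      fun_prop
    have hpre := (isPreconnected_connectedComponentIn (F := {p : unitInterval × Circle |
      C.X (late p.1) + r * p.2 ∈ K}) (x := ((0 : unitInterval), C.n))).image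
        (fun p : unitInterval × Circle => (late p.1, p.2)) hmap.continuousOn
    have hmem0 : ((0 : unitInterval), C.n) ∈ {p : unitInterval × Circle |
        C.X (late p.1) + r * p.2 ∈ K} := by
      show C.X (late 0) + r * C.n ∈ K
      rw [late_zero, ← C.nonneg_iff, ← C.u_late r hmid]
      exact h0
    have hsub := hpre.subset_connectedComponentIn (F := {p | 0 ≤ C.u r p}) (x := (mid, C.n))
      ⟨(0, C.n), mem_connectedComponentIn hmem0, by beta_reduce; rw [late_zero]⟩ (by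
        rintro _ ⟨p, hp, rfl⟩
        have h2 := connectedComponentIn_subset _ _ hp
        show 0 ≤ C.u r (late p.1, p.2)
        rw [C.u_late r (late_ge p.1), C.nonneg_iff]
        exact h2)
    exact hsub ⟨(1, c), hc, by beta_reduce; rw [late_one]⟩
  · intro θ hθ
    have hpre : IsPreconnected ((fun θ : ℝ => ((1 : unitInterval), C.s * Circle.exp θ)) ''
        Icc (-(Real.pi / 2)) (Real.pi / 2)) :=
      isPreconnected_Icc.image _ (by fun_prop)
    apply hS _ hpre
    · refine ⟨0, ⟨?_, ?_⟩, by beta_reduce; rw [Circle.exp_zero, mul_one]⟩ <;>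
      · have := Real.pi_pos; linarith
    · rintro _ ⟨θ', hθ', rfl⟩
      exact hneg θ' (abs_le.2 hθ')
    · exact ⟨θ, abs_le.1 hθ, rfl⟩
  · intro θ hθ hrθ
    apply hW
    have hpre : IsPreconnected ((fun θ' : ℝ => ((mid : unitInterval), C.n * Circle.exp θ')) ''
        Icc (-|θ|) |θ|) :=
      isPreconnected_Icc.image _ (by fun_prop)
    apply hpre.subset_connectedComponentIn (x := (mid, C.n))
    · exact ⟨0, ⟨by simp, by simp⟩, by beta_reduce; rw [Circle.exp_zero, mul_one]⟩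
    · rintro _ ⟨θ', hθ', rfl⟩
      show 0 ≤ C.u r (mid, C.n * Circle.exp θ')
      rw [C.u_late r hmid, C.nonneg_iff]
      apply C.ball
      apply C.norm_late _ hr.le
      have h2 : |θ'| ≤ |θ| := abs_le.2 hθ'
      have h3 : Real.cos θ ≤ Real.cos θ' := by
        rw [← Real.cos_abs θ, ← Real.cos_abs θ']
        have hpi := Real.pi_pos
        exact Real.cos_le_cos_of_nonneg_of_le_pi (abs_nonneg _) (by linarith) h2
      have := C.ρpos
      nlinarith
    · refine ⟨θ, ⟨?_, ?_⟩, rfl⟩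
      · exact neg_abs_le θ
      · exact le_abs_self θ

/-- The one-sided alternative for two chord lengths `a`, `b` and an angle `φ`. -/
theorem alternative {a b φ : ℝ} {Q Q' : Set (unitInterval × Circle)}
    {v v' : unitInterval × Circle → ℝ}
    (hQ : IsPreconnected Q) (hQc : IsPreconnected Qᶜ) (hQ' : IsPreconnected Q')
    (hQ'c : IsPreconnected Q'ᶜ) (hv : Continuous v) (hv' : Continuous v')
    (hvP : ∀ p ∈ Q, 0 < v p) (hvPc : ∀ p ∉ Q, v p ≤ 0)
    (hvP' : ∀ p ∈ Q', 0 < v' p) (hvP'c : ∀ p ∉ Q', v' p ≤ 0)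
    (hz : ∀ p, v p = 0 → C.u a p = 0) (hz' : ∀ p, v' p = 0 → C.u b p = 0)
    (hb' : ∀ c, v' (0, c) ≠ 0)
    (hH : Half C.s {c | ((1 : unitInterval), c) ∈ Q})
    (hH' : Half C.s {c | ((1 : unitInterval), c) ∈ Q'})
    (hm : (mid, C.n * Circle.exp (φ / 2)) ∉ Q) (hm' : (mid, C.n * Circle.exp (-(φ / 2))) ∉ Q')
    (hφ : |φ| ≤ Real.pi)
    (hno : ∀ x ∈ K, ∀ c : Circle, x + a * c ∈ K → x + b * ((c * Circle.exp (-φ) : Circle) : ℂ) ∈ K →
      g (x + a * c) = g x → g (x + b * ((c * Circle.exp (-φ) : Circle) : ℂ)) = g x → False) :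
    (∀ c ∈ {c | ((1 : unitInterval), c) ∈ Q},
        c * Circle.exp (-φ) ∈ {c | ((1 : unitInterval), c) ∈ Q'}) ∨
      (∀ c ∈ {c | ((1 : unitInterval), c) ∈ Q'},
        c * Circle.exp φ ∈ {c | ((1 : unitInterval), c) ∈ Q}) := by
  let e : (unitInterval × Circle) ≃ₜ (unitInterval × Circle) :=
    (Homeomorph.refl unitInterval).prodCongr (Homeomorph.mulRight (Circle.exp (-φ)))
  have he : ∀ p, e p = (p.1, p.2 * Circle.exp (-φ)) := fun p => rfl
  have hexp : ∀ c : Circle, c * Circle.exp φ * Circle.exp (-φ) = c := by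
    intro c
    rw [mul_assoc, ← Circle.exp_add, add_neg_cancel, Circle.exp_zero, mul_one]
  have hpre : IsPreconnected (e ⁻¹' Q') := by
    rw [← Homeomorph.image_symm]
    exact hQ'.image _ e.symm.continuous.continuousOn
  have hprec : IsPreconnected (e ⁻¹' Q')ᶜ := by
    rw [← preimage_compl, ← Homeomorph.image_symm]
    exact hQ'c.image _ e.symm.continuous.continuousOn
  have hhalf : |φ / 2| ≤ Real.pi / 2 := by
    rw [abs_div, abs_two]; linarith
  have h := nested (P := Q) (P' := e ⁻¹' Q') hQ hQc hpre hprec (v := v) (v' := fun p => v' (e p))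
    hv (hv'.comp e.continuous) hvP hvPc (fun p hp => hvP' _ hp) (fun p hp => hvP'c _ hp)
    (by
      intro p h1 h2
      have h3 := C.eq_of_u_zero (hz p h1)
      have h4 := C.eq_of_u_zero (hz' _ h2)
      rw [he] at h4
      have h5 : 0 ≤ g (C.X p.1) := (C.nonneg_iff _).2 (C.mem _)
      exact hno (C.X p.1) (C.mem _) p.2 ((C.nonneg_iff _).1 (by rw [h3]; exact h5))
        ((C.nonneg_iff _).1 (by rw [h4]; exact h5)) h3 h4)
    (fun c => hb' _)
    (p₁ := (1, C.s * Circle.exp (φ / 2))) (p₂ := (mid, C.n * Circle.exp (φ / 2)))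
    (hH _ hhalf)
    (by
      show e (1, C.s * Circle.exp (φ / 2)) ∈ Q'
      rw [he]
      have h1 : C.s * Circle.exp (φ / 2) * Circle.exp (-φ) = C.s * Circle.exp (-(φ / 2)) := by
        rw [mul_assoc, ← Circle.exp_add]
        congr 2
        ring
      show ((1 : unitInterval), C.s * Circle.exp (φ / 2) * Circle.exp (-φ)) ∈ Q'
      rw [h1]
      exact hH' _ (by rw [abs_neg]; exact hhalf))
    hm
    (by
      show e (mid, C.n * Circle.exp (φ / 2)) ∉ Q'
      rw [he]
      have h1 : C.n * Circle.exp (φ / 2) * Circle.exp (-φ) = C.n * Circle.exp (-(φ / 2)) := by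
        rw [mul_assoc, ← Circle.exp_add]
        congr 2
        ring
      show (mid, C.n * Circle.exp (φ / 2) * Circle.exp (-φ)) ∉ Q'
      rw [h1]
      exact hm')
  rcases h with h | h
  · left
    intro c hc
    exact h hc
  · right
    intro c hc
    apply h
    show ((1 : unitInterval), c * Circle.exp φ * Circle.exp (-φ)) ∈ Q'
    rw [hexp]
    exact hc

/-- **Core theorem.** -/
theorem core {a : Fin 3 → ℝ} {A : Fin 3 → ℝ} (ha : ∀ i, 0 < a i) (haρ : ∀ i, a i < C.ρ)
    (hA : ∀ i, 0 < A i) (hsum : A 0 + A 1 + A 2 = Real.pi)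
    (hcos : ∀ i j, a i ≤ 2 * C.ρ * Real.cos (A j / 2)) :
    ∃ i j k : Fin 3, i ≠ j ∧ j ≠ k ∧ i ≠ k ∧ ∃ φ : ℝ, (φ = A k ∨ φ = -A k) ∧
      ∃ x ∈ K, ∃ c : Circle, x + a i * c ∈ K ∧
        x + a j * ((c * Circle.exp (-φ) : Circle) : ℂ) ∈ K ∧ g (x + a i * c) = g x ∧
        g (x + a j * ((c * Circle.exp (-φ) : Circle) : ℂ)) = g x := by
  by_contra hcon
  have hno : ∀ i j k : Fin 3, i ≠ j → j ≠ k → i ≠ k → ∀ φ : ℝ, (φ = A k ∨ φ = -A k) →
      ∀ x ∈ K, ∀ c : Circle, x + a i * c ∈ K →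
        x + a j * ((c * Circle.exp (-φ) : Circle) : ℂ) ∈ K → g (x + a i * c) = g x →
        g (x + a j * ((c * Circle.exp (-φ) : Circle) : ℂ)) = g x → False := by
    intro i j k h1 h2 h3 φ hφ x hx c h4 h5 h6 h7
    exact hcon ⟨i, j, k, h1, h2, h3, φ, hφ, x, hx, c, h4, h5, h6, h7⟩
  have hpi := Real.pi_pos
  have hAlt : ∀ k, A k < Real.pi := by
    intro k
    have h0 := hA 0
    have h1 := hA 1
    have h2 := hA 2
    fin_cases k <;> simp <;> linarith
  choose Q v hQ hQc hv hvP hvPc hz hb hn hH hm using fun i => C.region (ha i) (haρ i)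
  have pair : ∀ i j k : Fin 3, i ≠ j → j ≠ k → i ≠ k →
      Rot (A k) {c | ((1 : unitInterval), c) ∈ Q i} {c | ((1 : unitInterval), c) ∈ Q j} ∨
      Rot (A k) {c | ((1 : unitInterval), c) ∈ Q j} {c | ((1 : unitInterval), c) ∈ Q i} := by
    intro i j k h1 h2 h3
    have hk0 := hA k
    have hk1 := hAlt k
    have habs : |A k / 2| ≤ Real.pi / 2 := by rw [abs_of_pos (by positivity)]; linarith
    have hmm : ∀ i, (mid, C.n * Circle.exp (A k / 2)) ∉ Q i := fun i => hm i _ habs (hcos i k)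
    have hmm' : ∀ i, (mid, C.n * Circle.exp (-(A k / 2))) ∉ Q i := fun i =>
      hm i _ (by rw [abs_neg]; exact habs) (by rw [Real.cos_neg]; exact hcos i k)
    apply rot_of_oneSided (hH i) (hH j) (hn i) hk0 hk1
    · exact C.alternative (φ := A k) (hQ i) (hQc i) (hQ j) (hQc j) (hv i) (hv j) (hvP i) (hvPc i)
        (hvP j) (hvPc j) (hz i) (hz j) (hb j) (hH i) (hH j) (hmm i) (hmm' j)
        (by rw [abs_of_pos hk0]; exact hk1.le) (hno i j k h1 h2 h3 _ (Or.inl rfl))
    · have h4 := C.alternative (φ := -A k) (hQ i) (hQc i) (hQ j) (hQc j) (hv i) (hv j) (hvP i)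
        (hvPc i) (hvP j) (hvPc j) (hz i) (hz j) (hb j) (hH i) (hH j)
        (by rw [neg_div]; exact hmm' i) (by rw [neg_div, neg_neg]; exact hmm j)
        (by rw [abs_neg, abs_of_pos hk0]; exact hk1.le) (hno i j k h1 h2 h3 _ (Or.inr rfl))
      rw [neg_neg] at h4
      exact h4
  exact no_triple (hH 0) (hH 1) (hH 2) (hn 0) (hn 1) (hn 2) (hA 0) (hA 1) (hA 2) hsum
    (pair 1 2 0 (by decide) (by decide) (by decide))
    (pair 0 2 1 (by decide) (by decide) (by decide))
    (pair 0 1 2 (by decide) (by decide) (by decide))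

end Config

end Pool.Agent.TriposPlane
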