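import Mathlib
import Pool.Agent.TriposPlane.Core

set_option autoImplicit false

open Set Topology

namespace Pool.Agent.TriposPlane

/-- In a set that is locally path-connected, nearby points are joined inside the set. -/
theorem joinedIn_of_near {F : Set ℂ} [LocallyPathConnectedSpace F] {x : ℂ} (hx : x ∈ F) :
    ∃ ε : ℝ, 0 < ε ∧ ∀ y ∈ F, dist y x < ε → JoinedIn F y x := by
  have h1 : IsOpen (pathComponent (⟨x, hx⟩ : F)) := IsOpen.pathComponent _
  obtain ⟨ε, hε, hball⟩ := Metric.isOpen_iff.1 h1 _ (mem_pathComponent_self _)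
  refine ⟨ε, hε, fun y hy hyx => ?_⟩
  have h2 : (⟨y, hy⟩ : F) ∈ pathComponent (⟨x, hx⟩ : F) := hball hyx
  exact ((joinedIn_iff_joined hx hy).2 h2).symm

/-- Path components of locally path-connected closed sets are closed. -/
theorem isClosed_pathComponentIn {F : Set ℂ} [LocallyPathConnectedSpace F] (hF : IsClosed F)
    {x : ℂ} (hx : x ∈ F) : IsClosed (pathComponentIn F x) := by
  have h1 : pathComponentIn F x = Subtype.val '' pathComponent (⟨x, hx⟩ : F) := by
    ext y
    constructor
    · intro h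
      exact ⟨⟨y, JoinedIn.target_mem h⟩, (joinedIn_iff_joined hx (JoinedIn.target_mem h)).1 h, rfl⟩
    · rintro ⟨⟨y, hy⟩, h, rfl⟩
      exact (joinedIn_iff_joined hx hy).2 h
  rw [h1]
  exact hF.isClosedEmbedding_subtypeVal.isClosedMap _ (IsClosed.pathComponent _)

/-- A ball meeting `interior M` and missing `frontier M` is contained in `interior M`. -/
theorem ball_subset_interior {M : Set ℂ} {q : ℂ} {ρ : ℝ} (hq : q ∈ interior M)
    (hρ : ∀ x ∈ frontier M, ρ ≤ dist x q) : Metric.ball q ρ ⊆ interior M := by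
  rcases le_or_gt ρ 0 with h0 | h0
  · rw [Metric.ball_eq_empty.2 h0]; exact empty_subset _
  have hconv : IsPreconnected (Metric.ball q ρ) := (convex_ball q ρ).isPreconnected
  have hcov : Metric.ball q ρ ⊆ interior M ∪ (closure M)ᶜ := by
    intro x hx
    by_contra hxn
    simp only [mem_union, mem_compl_iff, not_or, not_not] at hxn
    have := hρ x ⟨hxn.2, hxn.1⟩
    rw [Metric.mem_ball] at hx
    linarith
  have hdisj : Disjoint (interior M) (closure M)ᶜ := by
    rw [disjoint_compl_right_iff_subset]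
    exact interior_subset.trans subset_closure
  exact hconv.subset_left_of_subset_union isOpen_interior isClosed_closure.isOpen_compl hdisj hcov
    ⟨q, Metric.mem_ball_self h0, hq⟩

theorem exists_circle {x : ℂ} (r : ℝ) (hr : ‖x‖ = r) : ∃ n : Circle, x = r * n := by
  rcases eq_or_ne r 0 with h0 | h0
  · refine ⟨1, ?_⟩
    rw [h0, norm_eq_zero] at hr
    rw [h0, hr]
    simp
  · have h1 : ‖x / r‖ = 1 := by
      rw [norm_div, Complex.norm_real, hr, Real.norm_eq_abs, ← hr, abs_norm, hr, div_self h0]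
    refine ⟨⟨x / r, mem_sphere_zero_iff_norm.2 h1⟩, ?_⟩
    have h2 : (r : ℂ) ≠ 0 := Complex.ofReal_ne_zero.2 h0
    show x = r * (x / r)
    field_simp

theorem exists_geom {M : Set ℂ} (hM : IsCompact M) (hint : (interior M).Nonempty)
    [LocallyPathConnectedSpace M] [LocallyPathConnectedSpace (frontier M)] :
    ∃ (K : Set ℂ) (q z xs : ℂ) (ρ R : ℝ) (n s : Circle), K ⊆ M ∧ IsCompact K ∧
      IsPathConnected K ∧ frontier K ⊆ frontier M ∧ 0 < ρ ∧
      q - z = ρ * n ∧ Metric.closedBall q ρ ⊆ K ∧ 0 ≤ R ∧ xs = R * s ∧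
      K ⊆ Metric.closedBall 0 R ∧ JoinedIn (K ∩ frontier M) z xs ∧
      ∀ x ∈ frontier M, ρ ≤ dist x q := by
  obtain ⟨p, hp⟩ := hint
  have hpM : p ∈ M := interior_subset hp
  set K : Set ℂ := pathComponentIn M p with hK
  have hKM : K ⊆ M := pathComponentIn_subset
  have hKcl : IsClosed K := isClosed_pathComponentIn hM.isClosed hpM
  have hKc : IsCompact K := hM.of_isClosed_subset hKcl hKM
  have hpK : p ∈ K := mem_pathComponentIn_self hpM
  have hKp : IsPathConnected K := isPathConnected_pathComponentIn hpM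
  -- path-connected subsets of `M` meeting `K` lie in `K`
  have hjoin : ∀ y ∈ K, ∀ w, JoinedIn M y w → w ∈ K := fun y h1 w h2 => JoinedIn.trans h1 h2
  have hball : ∀ x ∈ K, ∀ r : ℝ, Metric.ball x r ⊆ M → Metric.ball x r ⊆ K := by
    intro x hx r hr y hy
    apply hjoin x hx
    have h1 : 0 < r := Metric.pos_of_mem_ball hy
    exact (((convex_ball x r).isPathConnected ⟨x, Metric.mem_ball_self h1⟩).joinedIn x
      (Metric.mem_ball_self h1) y hy).mono hr
  have hintK : ∀ x ∈ K, x ∈ interior M → x ∈ interior K := by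
    intro x hx hxi
    obtain ⟨r, hr, hrM⟩ := Metric.isOpen_iff.1 isOpen_interior x hxi
    rw [mem_interior_iff_mem_nhds]
    exact Filter.mem_of_superset (Metric.ball_mem_nhds x hr)
      (hball x hx r (hrM.trans interior_subset))
  have hfr : frontier K ⊆ frontier M := by
    intro x hx
    rw [hKcl.frontier_eq] at hx
    rw [hM.isClosed.frontier_eq]
    exact ⟨hKM hx.1, fun h => hx.2 (hintK x hx.1 h)⟩
  -- the farthest point
  obtain ⟨xs, hxsK, hxs⟩ := hKc.exists_isMaxOn ⟨p, hpK⟩ continuous_norm.continuousOn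
  have hbig : K ⊆ Metric.closedBall 0 ‖xs‖ := by
    intro x hx
    rw [mem_closedBall_zero_iff]
    exact hxs hx
  obtain ⟨s, hs⟩ := exists_circle (x := xs) ‖xs‖ rfl
  have hxsint : xs ∉ interior K := by
    intro h
    obtain ⟨r, hr, hrK⟩ := Metric.isOpen_iff.1 isOpen_interior xs h
    have h1 : xs + (r / 2 : ℝ) * s ∈ K := by
      apply interior_subset
      apply hrK
      rw [Metric.mem_ball, dist_eq_norm, add_sub_cancel_left, norm_mul, Circle.norm_coe,
        Complex.norm_real, Real.norm_of_nonneg (by positivity)]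
      linarith
    have h2 := hbig h1
    rw [mem_closedBall_zero_iff] at h2
    have h3 : xs + (r / 2 : ℝ) * s = ((‖xs‖ + r / 2 : ℝ) : ℂ) * s := by
      nth_rewrite 1 [hs]
      push_cast
      ring
    rw [h3, norm_mul, Circle.norm_coe, Complex.norm_real, Real.norm_of_nonneg (by positivity)] at h2
    linarith
  have hxsM : xs ∉ interior M := fun h => hxsint (hintK xs hxsK h)
  have hxsF : xs ∈ frontier M := by
    rw [hM.isClosed.frontier_eq]
    exact ⟨hKM hxsK, hxsM⟩
  -- a point of the closure of the interior of `K`, joined to `xs` in the frontier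
  obtain ⟨x₁, hx₁F, hx₁K, hx₁c, hx₁j⟩ : ∃ x₁, x₁ ∈ frontier M ∧ x₁ ∈ K ∧
      x₁ ∈ closure (interior K) ∧ JoinedIn (frontier M) xs x₁ := by
    have hj : JoinedIn K xs p := hKp.joinedIn xs hxsK p hpK
    set γ := hj.somePath with hγ
    have hγK : ∀ t, γ t ∈ K := hj.somePath_mem
    set T : Set unitInterval := {t | γ t ∈ closure (interior K)} with hT
    have hTc : IsCompact T := (isClosed_closure.preimage γ.continuous).isCompact
    have hTne : T.Nonempty := ⟨1, by
      show γ 1 ∈ closure (interior K)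
      rw [γ.target]
      exact subset_closure (hintK p hpK hp)⟩
    obtain ⟨t₀, ht₀, hmin⟩ := hTc.exists_isLeast hTne
    have hlt : ∀ t < t₀, γ t ∈ frontier M := by
      intro t ht
      have h1 : γ t ∉ closure (interior K) := fun h => absurd (hmin h) (not_le.2 ht)
      rw [hM.isClosed.frontier_eq]
      exact ⟨hKM (hγK t), fun h => h1 (subset_closure (hintK _ (hγK t) h))⟩
    have ht₀F : γ t₀ ∈ frontier M := by
      rw [hM.isClosed.frontier_eq]
      refine ⟨hKM (hγK t₀), fun h => ?_⟩
      have h1 : γ t₀ ∈ interior K := hintK _ (hγK _) h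
      rcases eq_or_ne t₀ 0 with h0 | h0
      · rw [h0, γ.source] at h1
        exact hxsint h1
      · have h2 : 0 < t₀ := lt_of_le_of_ne t₀.2.1 (Ne.symm h0)
        have h3 : ∀ᶠ t in 𝓝 t₀, γ t ∈ interior K :=
          γ.continuous.continuousAt.eventually (isOpen_interior.mem_nhds h1)
        have h4 : ∃ t < t₀, γ t ∈ interior K := by
          have h5 : (𝓝[<] t₀).NeBot := nhdsLT_neBot_of_exists_lt ⟨0, h2⟩
          obtain ⟨t, ht, ht'⟩ := ((h3.filter_mono nhdsWithin_le_nhds).and
            (self_mem_nhdsWithin : Iio t₀ ∈ 𝓝[<] t₀)).exists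
          exact ⟨t, ht', ht⟩
        obtain ⟨t, ht, ht'⟩ := h4
        exact absurd (hmin (show t ∈ T from subset_closure ht')) (not_le.2 ht)
    refine ⟨γ t₀, ht₀F, hγK t₀, ht₀, ?_⟩
    have hcont : ContinuousOn (fun t : ℝ => γ.extend (t * t₀)) unitInterval := by
      apply Continuous.continuousOn
      exact γ.continuous_extend.comp (by fun_prop)
    refine JoinedIn.ofLine hcont (by simp) ?_ ?_
    · rw [one_mul, Path.extend_apply γ t₀.2]
    · rintro _ ⟨t, ht, rfl⟩
      have h1 : t * t₀ ∈ unitInterval := ⟨mul_nonneg ht.1 t₀.2.1, mul_le_one₀ ht.2 t₀.2.1 t₀.2.2⟩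
      beta_reduce
      rw [Path.extend_apply γ h1]
      have h2 : (⟨t * t₀, h1⟩ : unitInterval) ≤ t₀ := by
        show t * (t₀ : ℝ) ≤ t₀
        exact mul_le_of_le_one_left t₀.2.1 ht.2
      rcases h2.lt_or_eq with h3 | h3
      · exact hlt _ h3
      · rw [h3]; exact ht₀F
  -- the touching ball
  obtain ⟨ε, hε, hnear⟩ := joinedIn_of_near hx₁F
  obtain ⟨q, hqK, hqx⟩ := Metric.mem_closure_iff.1 hx₁c (ε / 2) (by positivity)
  obtain ⟨z, hz, hqz⟩ := isClosed_frontier.exists_infDist_eq_dist ⟨x₁, hx₁F⟩ q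
  have hfar : ∀ x ∈ frontier M, dist q z ≤ dist x q := by
    intro x hx
    rw [← hqz, dist_comm x q]
    exact Metric.infDist_le_dist_of_mem hx
  have hqint : q ∈ interior M := interior_mono hKM hqK
  have hρ : 0 < dist q z := by
    rw [dist_pos]
    rintro rfl
    exact (hM.isClosed.frontier_eq ▸ hz).2 hqint
  have hb1 : Metric.ball q (dist q z) ⊆ interior M := ball_subset_interior hqint hfar
  have hqK' : q ∈ K := interior_subset hqK
  have hb2 : Metric.ball q (dist q z) ⊆ K := hball q hqK' _ (hb1.trans interior_subset)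
  have hb3 : Metric.closedBall q (dist q z) ⊆ K := by
    rw [← closure_ball q hρ.ne']
    exact hKcl.closure_subset_iff.2 hb2
  have hzx : JoinedIn (frontier M) z x₁ := by
    apply hnear z hz
    have h1 : dist q z ≤ dist x₁ q := hfar x₁ hx₁F
    have h2 : dist z x₁ ≤ dist z q + dist q x₁ := dist_triangle _ _ _
    rw [dist_comm z q, dist_comm q x₁] at h2
    linarith
  have hzj : JoinedIn (frontier M) z xs := hzx.trans hx₁j.symm
  have hzj' : JoinedIn (K ∩ frontier M) z xs := by
    refine ⟨hzj.somePath, fun t => ⟨?_, hzj.somePath_mem t⟩⟩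
    apply hjoin xs hxsK
    have h1 : JoinedIn (frontier M) z (hzj.somePath t) := by
      have hcont : ContinuousOn (fun r : ℝ => hzj.somePath.extend (r * t)) unitInterval := by
        apply Continuous.continuousOn
        exact hzj.somePath.continuous_extend.comp (by fun_prop)
      refine JoinedIn.ofLine hcont (by simp) ?_ ?_
      · rw [one_mul, Path.extend_apply _ t.2]
      · rintro _ ⟨r, hr, rfl⟩
        have h1 : r * t ∈ unitInterval := ⟨mul_nonneg hr.1 t.2.1, mul_le_one₀ hr.2 t.2.1 t.2.2⟩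
        beta_reduce
        rw [Path.extend_apply _ h1]
        exact hzj.somePath_mem _
    exact (hzj.symm.trans h1).mono hM.isClosed.frontier_subset
  obtain ⟨n, hn⟩ := exists_circle (x := q - z) (dist q z) (dist_eq_norm q z).symm
  exact ⟨K, q, z, xs, dist q z, ‖xs‖, n, s, hKM, hKc, hKp, hfr, hρ, hn, hb3, norm_nonneg _, hs,
    hbig, hzj', hfar⟩

/-- The configuration attached to a function. -/
theorem exists_config {M K : Set ℂ} {q z xs : ℂ} {ρ R : ℝ} {n s : Circle} (hKM : K ⊆ M)
    (hKc : IsCompact K) (hKp : IsPathConnected K) (hfr : frontier K ⊆ frontier M) (hρ : 0 < ρ)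
    (hn : q - z = ρ * n) (hball : Metric.closedBall q ρ ⊆ K) (hR : 0 ≤ R) (hxs : xs = R * s)
    (hbig : K ⊆ Metric.closedBall 0 R) (hj : JoinedIn (K ∩ frontier M) z xs)
    (hfar : ∀ x ∈ frontier M, ρ ≤ dist x q) {f : ℂ → ℝ} (hf : ContinuousOn f M)
    (hf0 : ∀ x ∈ M, 0 ≤ f x) (hff : ∀ x ∈ frontier M, f x = 0) :
    ∃ (g : ℂ → ℝ) (C : Config K g), C.ρ = ρ ∧ ∀ x ∈ K, g x = f x := by
  classical
  have hKcl : IsClosed K := hKc.isClosed
  have hKne : K.Nonempty := hKp.nonempty
  set g : ℂ → ℝ := K.piecewise f (fun x => - Metric.infDist x K) with hg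
  have hgK : ∀ x ∈ K, g x = f x := fun x hx => Set.piecewise_eq_of_mem _ _ _ hx
  have hgKc : ∀ x ∉ K, g x < 0 := by
    intro x hx
    rw [hg, Set.piecewise_eq_of_notMem _ _ _ hx, neg_lt_zero]
    exact (hKcl.notMem_iff_infDist_pos hKne).1 hx
  have hgc : Continuous g := by
    rw [hg]
    apply continuous_piecewise
    · intro a ha
      rw [hff a (hfr ha), Metric.infDist_zero_of_mem (hKcl.frontier_subset ha), neg_zero]
    · rw [hKcl.closure_eq]
      exact hf.mono hKM
    · exact (Metric.continuous_infDist_pt K).neg.continuousOn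
  obtain ⟨x₀, hx₀K, hx₀⟩ := hKc.exists_isMaxOn hKne hgc.continuousOn
  have hmax : ∀ y, g y ≤ g x₀ := by
    intro y
    by_cases hy : y ∈ K
    · exact hx₀ hy
    · have h1 := hgKc y hy
      have h2 : 0 ≤ g x₀ := by rw [hgK _ hx₀K]; exact hf0 _ (hKM hx₀K)
      linarith
  have hzK : z ∈ K := hj.source_mem.1
  have hj₀ : JoinedIn K x₀ z := hKp.joinedIn x₀ hx₀K z hzK
  set γ₁ := hj₀.somePath with hγ₁
  set γ₂ := hj.somePath with hγ₂
  have hγ₁m : ∀ t : ℝ, γ₁.extend t ∈ K := by
    intro t
    have h1 : γ₁.extend t ∈ range γ₁.extend := ⟨t, rfl⟩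
    rw [Path.extend_range] at h1
    obtain ⟨t', ht'⟩ := h1
    rw [← ht']
    exact hj₀.somePath_mem t'
  have hγ₂m : ∀ t : ℝ, γ₂.extend t ∈ K ∩ frontier M := by
    intro t
    have h1 : γ₂.extend t ∈ range γ₂.extend := ⟨t, rfl⟩
    rw [Path.extend_range] at h1
    obtain ⟨t', ht'⟩ := h1
    rw [← ht']
    exact hj.somePath_mem t'
  set X : unitInterval → ℂ := fun t =>
    if (t : ℝ) ≤ 1 / 2 then γ₁.extend (4 * t - 1) else γ₂.extend (2 * t - 1) with hX
  have hlate : ∀ t : unitInterval, 1 / 2 ≤ (t : ℝ) → X t ∈ K ∩ frontier M := by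
    intro t ht
    rw [hX]
    beta_reduce
    split_ifs with h
    · have h1 : (t : ℝ) = 1 / 2 := le_antisymm h ht
      rw [h1, show (4 : ℝ) * (1 / 2) - 1 = 1 by norm_num, Path.extend_one]
      exact hj.source_mem
    · exact hγ₂m _
  refine ⟨g, {
    X := X
    cont := ?_
    gcont := hgc
    nonneg_iff := ?_
    mem := ?_
    top := ?_
    q := q
    ρ := ρ
    n := n
    ρpos := hρ
    hq := ?_
    ball := hball
    far := fun t ht => hfar _ (hlate t ht).2
    gzero := ?_
    R := R
    s := s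
    Rnonneg := hR
    hs := ?_
    big := hbig }, rfl, hgK⟩
  · rw [hX]
    apply Continuous.if_le
    · exact γ₁.continuous_extend.comp (by fun_prop)
    · exact γ₂.continuous_extend.comp (by fun_prop)
    · fun_prop
    · fun_prop
    · intro t ht
      rw [ht, show (4 : ℝ) * (1 / 2) - 1 = 1 by norm_num,
        show (2 : ℝ) * (1 / 2) - 1 = 0 by norm_num, Path.extend_one, Path.extend_zero]
  · intro x
    constructor
    · intro h
      by_contra hx
      exact absurd (hgKc x hx) (not_lt.2 h)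
    · intro hx
      rw [hgK x hx]
      exact hf0 x (hKM hx)
  · intro t
    rw [hX]
    beta_reduce
    split_ifs
    · exact hγ₁m _
    · exact (hγ₂m _).1
  · intro t ht y
    have h1 : X t = x₀ := by
      rw [hX]
      beta_reduce
      rw [if_pos (by linarith), Path.extend_of_le_zero _ (by linarith)]
    rw [h1]
    exact hmax y
  · have h1 : X mid = z := by
      rw [hX]
      beta_reduce
      have h2 : ((mid : unitInterval) : ℝ) = 1 / 2 := rfl
      rw [h2, if_pos le_rfl, show (4 : ℝ) * (1 / 2) - 1 = 1 by norm_num, Path.extend_one]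
    rw [h1]
    exact hn
  · intro t ht
    rw [hgK _ (hlate t ht).1]
    exact hff _ (hlate t ht).2
  · have h1 : X 1 = xs := by
      rw [hX]
      beta_reduce
      have h2 : ((1 : unitInterval) : ℝ) = 1 := rfl
      rw [h2, if_neg (by norm_num), show (2 : ℝ) * 1 - 1 = 1 by norm_num, Path.extend_one]
    rw [h1]
    exact hxs

end Pool.Agent.TriposPlane
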