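import Mathlib
import Pool.Agent.TriposPlane.Geom
import Pool.Agent.InscribedSimplex.Simplex

set_option autoImplicit false

open Set Topology EuclideanGeometry Pointwise

namespace Pool.Agent.TriposPlane

/-- The angle of the triangle at the vertex `k`. -/
noncomputable def ang (S : Fin 3 → EuclideanSpace ℝ (Fin 2)) (k : Fin 3) : ℝ :=
  ∠ (S (k + 1)) (S k) (S (k + 2))

/-- The length of the side opposite to the vertex `k`. -/
noncomputable def side (S : Fin 3 → EuclideanSpace ℝ (Fin 2)) (k : Fin 3) : ℝ :=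
  dist (S (k + 1)) (S (k + 2))

theorem ang_eq (S : Fin 3 → EuclideanSpace ℝ (Fin 2)) {i j k : Fin 3} (h1 : i ≠ j) (h2 : j ≠ k)
    (h3 : i ≠ k) : ang S k = ∠ (S i) (S k) (S j) := by
  have h : (i = k + 1 ∧ j = k + 2) ∨ (i = k + 2 ∧ j = k + 1) := by
    revert i j k; decide
  unfold ang
  rcases h with ⟨rfl, rfl⟩ | ⟨rfl, rfl⟩
  · rfl
  · exact angle_comm _ _ _

theorem side_eq (S : Fin 3 → EuclideanSpace ℝ (Fin 2)) {i j k : Fin 3} (h1 : i ≠ j) (h2 : j ≠ k)
    (h3 : i ≠ k) : side S k = dist (S i) (S j) := by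
  have h : (i = k + 1 ∧ j = k + 2) ∨ (i = k + 2 ∧ j = k + 1) := by
    revert i j k; decide
  unfold side
  rcases h with ⟨rfl, rfl⟩ | ⟨rfl, rfl⟩
  · rfl
  · exact dist_comm _ _

theorem not_collinear {S : Fin 3 → EuclideanSpace ℝ (Fin 2)} (hS : AffineIndependent ℝ S)
    {i j k : Fin 3} (h1 : i ≠ j) (h2 : j ≠ k) (h3 : i ≠ k) :
    ¬ Collinear ℝ ({S i, S k, S j} : Set (EuclideanSpace ℝ (Fin 2))) :=
  (affineIndependent_iff_not_collinear_of_ne h3 h1 h2.symm).1 hS

theorem ang_pos {S : Fin 3 → EuclideanSpace ℝ (Fin 2)} (hS : AffineIndependent ℝ S) (k : Fin 3) :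
    0 < ang S k := by
  have h1 := not_collinear hS (i := k + 1) (j := k + 2) (k := k) (by revert k; decide)
    (by revert k; decide) (by revert k; decide)
  exact lt_of_le_of_ne (angle_nonneg _ _ _) (angle_ne_zero_of_not_collinear h1).symm

theorem ang_sum {S : Fin 3 → EuclideanSpace ℝ (Fin 2)} (hS : AffineIndependent ℝ S) :
    ang S 0 + ang S 1 + ang S 2 = Real.pi := by
  have h1 : S 1 ≠ S 0 := fun h => by simpa using hS.injective h
  rw [← angle_add_angle_add_angle_eq_pi (S 2) h1]
  rw [ang_eq S (i := 2) (j := 1) (k := 0) (by decide) (by decide) (by decide),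
    ang_eq S (i := 0) (j := 2) (k := 1) (by decide) (by decide) (by decide),
    ang_eq S (i := 1) (j := 0) (k := 2) (by decide) (by decide) (by decide)]
  ring

theorem side_pos {S : Fin 3 → EuclideanSpace ℝ (Fin 2)} (hS : AffineIndependent ℝ S) (k : Fin 3) :
    0 < side S k := by
  apply dist_pos.2
  intro h
  have h1 : k + 1 = k + 2 := hS.injective h
  clear h
  revert h1
  revert k
  decide

/-- Law of cosines, in the form in which it is used. -/
theorem side_sq (S : Fin 3 → EuclideanSpace ℝ (Fin 2)) {i j k : Fin 3} (h1 : i ≠ j) (h2 : j ≠ k)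
    (h3 : i ≠ k) : side S k ^ 2 =
      side S i ^ 2 + side S j ^ 2 - 2 * side S i * side S j * Real.cos (ang S k) := by
  have h := law_cos (S i) (S k) (S j)
  rw [side_eq S h1 h2 h3, ang_eq S h1 h2 h3, side_eq S (i := j) (j := k) (k := i) h2 h3.symm h1.symm,
    side_eq S (i := i) (j := k) (k := j) h3 h2.symm h1]
  rw [pow_two, pow_two, pow_two, h]
  ring

theorem dist_circle {x : ℂ} {c : Circle} {a b φ : ℝ} :
    dist (x + a * c) (x + b * ((c * Circle.exp (-φ) : Circle) : ℂ)) ^ 2 =
      a ^ 2 + b ^ 2 - 2 * a * b * Real.cos φ := by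
  rw [dist_eq_norm]
  have h1 : x + a * c - (x + b * ((c * Circle.exp (-φ) : Circle) : ℂ)) =
      c * (a - b * Complex.exp (((-φ : ℝ) : ℂ) * Complex.I)) := by
    rw [Circle.coe_mul, Circle.coe_exp]; ring
  rw [h1, norm_mul, Circle.norm_coe, one_mul, Complex.sq_norm, Complex.normSq_apply,
    Complex.sub_re, Complex.sub_im, Complex.re_ofReal_mul, Complex.im_ofReal_mul,
    Complex.exp_ofReal_mul_I_re, Complex.exp_ofReal_mul_I_im, Complex.ofReal_re, Complex.ofReal_im,
    Real.cos_neg, Real.sin_neg]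
  linear_combination b ^ 2 * Real.sin_sq_add_cos_sq φ

/-- The plane theorem, in complex coordinates. -/
theorem plane_complex {M : Set ℂ} (hM : IsCompact M) (hint : (interior M).Nonempty)
    [LocallyPathConnectedSpace M] [LocallyPathConnectedSpace (frontier M)]
    {S : Fin 3 → EuclideanSpace ℝ (Fin 2)} (hS : AffineIndependent ℝ S) :
    ∃ σ : ℝ, 0 < σ ∧ ∀ s : ℝ, 0 < s → (∀ k, s * side S k ≤ σ) → ∀ f : ℂ → ℝ, ContinuousOn f M →
      (∀ x ∈ M, 0 ≤ f x) → (∀ x ∈ frontier M, f x = 0) →
      ∃ Y : Fin 3 → ℂ, (∀ i, Y i ∈ M) ∧ (∀ i j, dist (Y i) (Y j) = s * dist (S i) (S j)) ∧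
        ∀ i j, f (Y i) = f (Y j) := by
  obtain ⟨K, q, z, xs, ρ, R, n, c₀, hKM, hKc, hKp, hfr, hρ, hn, hball, hR, hxs, hbig, hj, hfar⟩ :=
    exists_geom hM hint
  have hpi := Real.pi_pos
  have hsum := ang_sum hS
  have hlt : ∀ k, ang S k < Real.pi := by
    intro k
    have h0 := ang_pos hS 0
    have h1 := ang_pos hS 1
    have h2 := ang_pos hS 2
    fin_cases k <;> simp <;> linarith
  have hcos : ∀ k, 0 < Real.cos (ang S k / 2) := by
    intro k
    have h1 := ang_pos hS k
    have h2 := hlt k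
    exact Real.cos_pos_of_mem_Ioo ⟨by linarith, by linarith⟩
  obtain ⟨k₀, -, hk₀⟩ := Finset.exists_min_image Finset.univ (fun k => Real.cos (ang S k / 2))
    ⟨0, Finset.mem_univ _⟩
  set m := Real.cos (ang S k₀ / 2) with hm
  have hmpos : 0 < m := hcos k₀
  refine ⟨min (ρ / 2) (ρ * m), by positivity, ?_⟩
  intro s hs hsσ f hf hf0 hff
  obtain ⟨g, C, hCρ, hgf⟩ := exists_config hKM hKc hKp hfr hρ hn hball hR hxs hbig hj hfar hf hf0 hff
  obtain ⟨i, j, k, h1, h2, h3, φ, hφ, x, hx, c, hx1, hx2, hg1, hg2⟩ := C.core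
    (a := fun k => s * side S k) (A := ang S) (fun k => mul_pos hs (side_pos hS k))
    (by
      intro k
      rw [hCρ]
      have := (hsσ k).trans (min_le_left _ _)
      linarith)
    (ang_pos hS) hsum (by
      intro i j
      rw [hCρ]
      have h1 := (hsσ i).trans (min_le_right _ _)
      have h2 : m ≤ Real.cos (ang S j / 2) := hk₀ j (Finset.mem_univ _)
      have h3 : ρ * m ≤ 2 * ρ * Real.cos (ang S j / 2) := by nlinarith [hcos j]
      linarith)
  have hcosφ : Real.cos φ = Real.cos (ang S k) := by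
    rcases hφ with rfl | rfl
    · rfl
    · exact Real.cos_neg _
  set yj : ℂ := x + ((s * side S i : ℝ) : ℂ) * c with hyj
  set yi : ℂ := x + ((s * side S j : ℝ) : ℂ) * ((c * Circle.exp (-φ) : Circle) : ℂ) with hyi
  have hd1 : dist yj x = s * dist (S j) (S k) := by
    rw [hyj, dist_eq_norm, add_sub_cancel_left, norm_mul, Circle.norm_coe, mul_one,
      Complex.norm_real, Real.norm_of_nonneg (mul_nonneg hs.le (side_pos hS i).le),
      side_eq S (i := j) (j := k) (k := i) h2 h3.symm h1.symm]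
  have hd2 : dist yi x = s * dist (S i) (S k) := by
    rw [hyi, dist_eq_norm, add_sub_cancel_left, norm_mul, Circle.norm_coe, mul_one,
      Complex.norm_real, Real.norm_of_nonneg (mul_nonneg hs.le (side_pos hS j).le),
      side_eq S (i := i) (j := k) (k := j) h3 h2.symm h1]
  have hd3 : dist yj yi = s * dist (S i) (S j) := by
    have h4 : dist yj yi ^ 2 = (s * side S k) ^ 2 := by
      have hh := side_sq S h1 h2 h3
      rw [hyj, hyi, dist_circle, hcosφ]
      linear_combination (-(s ^ 2)) * hh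
    rw [← side_eq S h1 h2 h3]
    exact (pow_left_inj₀ dist_nonneg (mul_nonneg hs.le (side_pos hS k).le) two_ne_zero).1 h4
  have hall : ∀ l : Fin 3, l = i ∨ l = j ∨ l = k := by
    intro l
    revert h1 h2 h3
    clear * - 
    revert i j k l
    decide
  have hgg : ∀ y ∈ K, g y = f y := hgf
  let Y : Fin 3 → ℂ := fun l => if l = k then x else if l = j then yj else yi
  have hYk : Y k = x := by simp [Y]
  have hYj : Y j = yj := by simp [Y, h2]
  have hYi : Y i = yi := by simp [Y, h1, h3]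
  have hYK : ∀ l, Y l ∈ K := by
    intro l
    rcases hall l with rfl | rfl | rfl
    · rw [hYi]; exact hx2
    · rw [hYj]; exact hx1
    · rw [hYk]; exact hx
  have hYg : ∀ l, g (Y l) = g x := by
    intro l
    rcases hall l with rfl | rfl | rfl
    · rw [hYi]; exact hg2
    · rw [hYj]; exact hg1
    · rw [hYk]
  refine ⟨Y, fun l => hKM (hYK l), ?_, ?_⟩
  · intro a b
    rcases hall a with rfl | rfl | rfl <;> rcases hall b with rfl | rfl | rfl
    · simp
    · rw [hYi, hYj, dist_comm, hd3]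
    · rw [hYi, hYk, hd2]
    · rw [hYi, hYj, hd3, dist_comm (S _) (S _)]
    · simp
    · rw [hYj, hYk, hd1]
    · rw [hYi, hYk, dist_comm, hd2, dist_comm (S _) (S _)]
    · rw [hYj, hYk, dist_comm, hd1, dist_comm (S _) (S _)]
    · simp
  · intro a b
    rw [← hgf _ (hYK a), ← hgf _ (hYK b), hYg, hYg]

/-- The plane theorem. -/
theorem plane_main {M : Set (EuclideanSpace ℝ (Fin 2))} (hM : IsCompact M)
    (hint : (interior M).Nonempty) [LocallyPathConnectedSpace M]
    [LocallyPathConnectedSpace (frontier M)]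
    {S : Fin 3 → EuclideanSpace ℝ (Fin 2)} (hS : AffineIndependent ℝ S) :
    ∃ σ : ℝ, 0 < σ ∧ ∀ τ : ℝ, 0 < τ → τ ≤ σ →
      ∀ f : EuclideanSpace ℝ (Fin 2) → ℝ, ContinuousOn f M → (∀ x ∈ M, 0 ≤ f x) →
        (∀ x ∈ frontier M, f x = 0) →
        ∃ (g : EuclideanSpace ℝ (Fin 2) ≃ᵢ EuclideanSpace ℝ (Fin 2)) (c : ℝ), 0 < c ∧
          (∀ i, g (c • S i) ∈ M) ∧ (∀ i j, f (g (c • S i)) = f (g (c • S j))) ∧
          Metric.diam (convexHull ℝ (Set.range fun i => g (c • S i))) = τ := by
  let e : ℂ ≃ₗᵢ[ℝ] EuclideanSpace ℝ (Fin 2) := Complex.orthonormalBasisOneI.repr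
  let h : ℂ ≃ₜ EuclideanSpace ℝ (Fin 2) := e.toHomeomorph
  have he : ∀ x, h x = e x := fun x => rfl
  set M' : Set ℂ := h ⁻¹' M with hM'
  have hM'c : IsCompact M' := h.isCompact_preimage.2 hM
  have hM'i : (interior M').Nonempty := by
    rw [hM', ← h.preimage_interior]
    exact hint.preimage h.surjective
  have hM'f : frontier M' = h ⁻¹' frontier M := (h.preimage_frontier M).symm
  have e1 : M' ≃ₜ M := h.subtype (fun x => Iff.rfl)
  have e2 : frontier M' ≃ₜ frontier M := h.subtype (fun x => by rw [← mem_preimage, ← hM'f])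
  have : LocallyPathConnectedSpace M' := e1.isOpenEmbedding.locallyPathConnectedSpace
  have : LocallyPathConnectedSpace (frontier M') := e2.isOpenEmbedding.locallyPathConnectedSpace
  obtain ⟨σ, hσ, hmain⟩ := plane_complex hM'c hM'i hS
  -- the diameter of the model triangle
  set D := Metric.diam (range S) with hD
  have hbdd : Bornology.IsBounded (range S) := (finite_range S).isBounded
  have hside : ∀ k, side S k ≤ D := fun k =>
    Metric.dist_le_diam_of_mem hbdd (mem_range_self _) (mem_range_self _)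
  have hDpos : 0 < D := (side_pos hS 0).trans_le (hside 0)
  refine ⟨σ, hσ, ?_⟩
  intro τ hτ hτσ f hf hf0 hff
  set s := τ / D with hs
  have hspos : 0 < s := by positivity
  have hsD : s * D = τ := by rw [hs]; field_simp
  obtain ⟨Y, hYM, hYd, hYf⟩ := hmain s hspos (fun k => by
      have := mul_le_mul_of_nonneg_left (hside k) hspos.le
      linarith) (fun x => f (h x)) (hf.comp h.continuous.continuousOn (fun x hx => hx))
    (fun x hx => hf0 _ hx) (fun x hx => hff _ (by rwa [hM'f] at hx))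
  -- the similarity
  have hA : AffineIndependent ℝ (fun i => s • S i) := by
    have h1 : (fun i => s • S i) =
        (AffineEquiv.homothetyUnitsMulHom (0 : EuclideanSpace ℝ (Fin 2))
          (Units.mk0 s hspos.ne')) ∘ S := by
      funext i
      simp [AffineMap.homothety_apply]
    rw [h1]
    exact (AffineEquiv.affineIndependent_iff _).2 hS
  obtain ⟨g, hg⟩ := Pool.Agent.InscribedSimplex.exists_isometry (A := fun i => s • S i)
    (B := fun i => h (Y i)) hA (by
      intro i j
      rw [he, he, e.dist_map, hYd, dist_smul₀, Real.norm_of_nonneg hspos.le])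
  have hg' : ∀ i, g (s • S i) = h (Y i) := hg
  refine ⟨g, s, hspos, ?_, ?_, ?_⟩
  · intro i
    rw [hg']; exact hYM i
  · intro i j
    rw [hg', hg']
    exact hYf i j
  · rw [convexHull_diam]
    have h1 : (range fun i => g (s • S i)) = g '' (s • range S) := by
      ext x
      constructor
      · rintro ⟨i, rfl⟩
        exact ⟨s • S i, ⟨S i, mem_range_self i, rfl⟩, rfl⟩
      · rintro ⟨_, ⟨_, ⟨i, rfl⟩, rfl⟩, rfl⟩
        exact ⟨i, rfl⟩
    rw [h1, IsometryEquiv.diam_image, diam_smul₀, Real.norm_of_nonneg hspos.le, ← hD, hsD]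

end Pool.Agent.TriposPlane
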